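import Pool.Agent.H484Z.Box.Plat

set_option autoImplicit false

namespace Pool.Agent.H484Z.Box

open Filter Topology Finset

noncomputable def P4 (τ c : ℝ) (s : ℕ → Dg) : E 4 := WithLp.toLp 2 (fun j => crd τ c j s)

noncomputable def tv (τ : ℝ) (a : Dg) : E 4 := WithLp.toLp 2 (fun j => TT τ j a)

def cons (a : Dg) (s : ℕ → Dg) : ℕ → Dg
  | 0 => a
  | i + 1 => s i

section
variable {τ c : ℝ}

theorem Par.P4_cont (h : Par τ c) : Continuous (P4 τ c) :=
  (PiLp.continuous_toLp 2 _).comp (continuous_pi fun j => h.crd_cont j)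

theorem Par.F4_compact (h : Par τ c) : IsCompact (Set.range (P4 τ c)) :=
  isCompact_range h.P4_cont

theorem Par.P4_succ (h : Par τ c) (s : ℕ → Dg) :
    P4 τ c s = diagL (rr c) (P4 τ c (fun i => s (i + 1))) + tv τ (s 0) := by
  ext j
  show crd τ c j s = rr c j * crd τ c j (fun i => s (i + 1)) + TT τ j (s 0)
  rw [h.crd_succ j s]; ring

theorem Par.P4_cons (h : Par τ c) (a : Dg) (s : ℕ → Dg) :
    P4 τ c (cons a s) = diagL (rr c) (P4 τ c s) + tv τ a := h.P4_succ (cons a s)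

theorem Par.F4_low (h : Par τ c) :
    lowerBox (Set.range (P4 τ c)) ≤ ((247 / 100 : ℝ) : EReal) := by
  refine upper h.good _ (fun a => P4 τ c a.1) ?_ 5 (by norm_num) ?_
  · rintro _ ⟨s, rfl⟩
    exact ⟨(s, s), rfl⟩
  · intro t a b η h1 _ hx hy hz hη
    have := dist_le_of (x := P4 τ c a.1) (y := P4 τ c b.1) (le_trans (by positivity) hη)
      (h.crd_all t a.1 b.1 η h1 hx hy hz hη)
    norm_num at this ⊢
    exact this

theorem Par.F4_up (h : Par τ c) :
    ((249 / 100 : ℝ) : EReal) ≤ upperBox (Set.range (P4 τ c)) := by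
  refine h.lower' _ h.F4_compact.totallyBounded (P4 τ c) (fun s => ⟨s, rfl⟩) 1 one_pos ?_
  intro j s s'
  rw [one_mul]
  exact abs_le_dist (P4 τ c s) (P4 τ c s') j

end

theorem exists_par (L : ℝ) : ∃ (τ : ℝ) (μ : ℕ), Par τ (1 / ((8192 * μ : ℕ) : ℝ)) ∧
    L ≤ ((8192 * μ : ℕ) : ℝ) := by
  obtain ⟨τ, hτ⟩ := exists_tau
  obtain ⟨μ, hμ⟩ := exists_nat_ge (max L (2 ^ 512))
  have h1 : L ≤ μ := le_trans (le_max_left _ _) hμ
  have h2 : (2 : ℝ) ^ 512 ≤ μ := le_trans (le_max_right _ _) hμ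
  have h3 : (0 : ℝ) < 2 ^ 512 := by positivity
  have h4 : (μ : ℝ) ≤ ((8192 * μ : ℕ) : ℝ) := by
    exact_mod_cast Nat.le_mul_of_pos_left μ (by norm_num)
  refine ⟨τ, μ, ⟨hτ, ?_, ?_⟩, h1.trans h4⟩
  · exact one_div_pos.2 (lt_of_lt_of_le h3 (h2.trans h4))
  · exact one_div_le_one_div_of_le h3 (h2.trans h4)

theorem diagL_bij {n : ℕ} (a : Fin n → ℝ) (ha : ∀ i, a i ≠ 0) : Function.Bijective (diagL a) := by
  refine Function.bijective_iff_has_inverse.2 ⟨diagL (fun i => (a i)⁻¹), ?_, ?_⟩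
  · intro x; ext i; simp [ha i]
  · intro x; ext i; simp [ha i]

theorem affine_main : ∃ (m : ℕ) (A : Fin m → (E 4 →L[ℝ] E 4)) (t : Fin m → E 4) (K : Set (E 4)),
    2 ≤ m ∧ (∀ i, Function.Bijective (A i)) ∧ (∀ i, ‖A i‖ < 1) ∧ K.Nonempty ∧ IsCompact K ∧
    K = ⋃ i, (fun x => A i x + t i) '' K ∧
    (Pairwise fun i j => Disjoint ((fun x => A i x + t i) '' K) ((fun x => A j x + t j) '' K)) ∧
    lowerBox K < upperBox K := by
  obtain ⟨τ, μ, h, -⟩ := exists_par 0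
  set c : ℝ := 1 / ((8192 * μ : ℕ) : ℝ)
  have hcard : Fintype.card Dg = 1039 := by simp
  let e : Fin 1039 ≃ Dg := (Fintype.equivFinOfCardEq hcard).symm
  refine ⟨1039, fun _ => diagL (rr c), fun i => tv τ (e i), Set.range (P4 τ c), by norm_num,
    fun _ => diagL_bij _ (fun j => (h.rr_pos j).ne'), fun _ => ?_, Set.range_nonempty _,
    h.F4_compact, ?_, ?_, lt_of_bounds h.F4_low h.F4_up⟩
  · refine lt_of_le_of_lt (ContinuousLinearMap.opNorm_le_bound _ (M := 1 / 2) (by norm_num) ?_)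
      (by norm_num)
    intro x
    apply norm_le_mul (by norm_num)
    intro j
    rw [diagL_apply, abs_mul, abs_of_pos (h.rr_pos j)]
    exact mul_le_mul_of_nonneg_right (h.rr_le j) (abs_nonneg _)
  · ext x
    simp only [Set.mem_iUnion, Set.mem_image, Set.mem_range]
    constructor
    · rintro ⟨s, rfl⟩
      refine ⟨e.symm (s 0), _, ⟨fun i => s (i + 1), rfl⟩, ?_⟩
      rw [Equiv.apply_symm_apply, ← h.P4_succ]
    · rintro ⟨i, _, ⟨s, rfl⟩, rfl⟩
      exact ⟨cons (e i) s, h.P4_cons _ _⟩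
  · intro i j hij
    rw [Set.disjoint_left]
    rintro _ ⟨_, ⟨s, rfl⟩, rfl⟩ ⟨_, ⟨s', rfl⟩, hx⟩
    simp only at hx
    rw [← h.P4_cons, ← h.P4_cons] at hx
    have h1 : crd τ c 3 (cons (e j) s') = crd τ c 3 (cons (e i) s) := congrArg (fun x => x 3) hx
    have h2 := h.crd_near (cons (e j) s')
    have h3 := h.crd_near (cons (e i) s)
    have h4 := uu_sep (s := e i) (s' := e j) (fun hh => hij (e.injective hh))
    have h5 := h.c20
    rw [h1] at h2
    simp only [cons] at h2 h3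
    rw [abs_le] at h2 h3
    rw [le_abs] at h4
    norm_num at h5 h4
    rcases h4 with h4 | h4 <;> linarith [h2.1, h2.2, h3.1, h3.2]

end Pool.Agent.H484Z.Box
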