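import Pool.Agent.H484Z.Box.Defs

set_option autoImplicit false

namespace Pool.Agent.H484Z.Box

open Filter Topology

section
variable {Y : Type*} [PseudoMetricSpace Y]

theorem coverNum_le_card {Ω κ : Type*} (K : Set Y) (δ : ℝ) (φ : Ω → Y) (hK : K ⊆ Set.range φ)
    (key : Ω → κ) (S : Finset κ) (hS : ∀ a, key a ∈ S)
    (h : ∀ a b, key a = key b → dist (φ a) (φ b) ≤ δ) : coverNum K δ ≤ S.card := by
  apply Nat.sInf_le
  refine ⟨fun i => φ '' {a | key a = (S.equivFin.symm i : κ)}, ?_, ?_⟩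
  · intro i
    apply Metric.ediam_le
    rintro _ ⟨a, ha, rfl⟩ _ ⟨b, hb, rfl⟩
    rw [edist_dist]
    exact ENNReal.ofReal_le_ofReal (h a b (ha.trans hb.symm))
  · intro y hy
    obtain ⟨a, rfl⟩ := hK hy
    refine Set.mem_iUnion.2 ⟨S.equivFin ⟨key a, hS a⟩, a, ?_, rfl⟩
    simp

theorem exists_cover (K : Set Y) (hK : TotallyBounded K) (δ : ℝ) (hδ : 0 < δ) :
    ∃ U : Fin (coverNum K δ) → Set Y,
      (∀ i, Metric.ediam (U i) ≤ ENNReal.ofReal δ) ∧ K ⊆ ⋃ i, U i := by
  have hne : {n : ℕ | ∃ U : Fin n → Set Y,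
      (∀ i, Metric.ediam (U i) ≤ ENNReal.ofReal δ) ∧ K ⊆ ⋃ i, U i}.Nonempty := by
    obtain ⟨t, ht, hcov⟩ := Metric.totallyBounded_iff.1 hK (δ / 2) (by positivity)
    refine ⟨ht.toFinset.card, fun i => Metric.ball (ht.toFinset.equivFin.symm i : Y) (δ / 2), ?_, ?_⟩
    · intro i
      apply Metric.ediam_le
      intro a ha b hb
      rw [edist_dist]
      apply ENNReal.ofReal_le_ofReal
      have h1 := Metric.mem_ball.1 ha
      have h2 := Metric.mem_ball.1 hb
      have h3 := dist_triangle_right a b (ht.toFinset.equivFin.symm i : Y)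
      linarith
    · intro y hy
      have := hcov hy
      simp only [Set.mem_iUnion] at this
      obtain ⟨c, hc, hyc⟩ := this
      refine Set.mem_iUnion.2 ⟨ht.toFinset.equivFin ⟨c, by simpa using hc⟩, ?_⟩
      simpa using hyc
  exact Nat.sInf_mem hne

theorem card_le_coverNum {Q : Type*} (K : Set Y) (hK : TotallyBounded K) (δ : ℝ) (hδ : 0 < δ)
    (S : Finset Q) (ψ : Q → Y) (hψ : ∀ q ∈ S, ψ q ∈ K)
    (hsep : ∀ q ∈ S, ∀ q' ∈ S, q ≠ q' → δ < dist (ψ q) (ψ q')) : S.card ≤ coverNum K δ := by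
  obtain ⟨U, hU, hcov⟩ := exists_cover K hK δ hδ
  have h1 : ∀ q : S, ∃ i, ψ q ∈ U i := fun q => Set.mem_iUnion.1 (hcov (hψ q q.2))
  choose g hg using h1
  have hinj : Function.Injective g := by
    intro q q' hqq
    by_contra hne
    have h2 := hsep q q.2 q' q'.2 (fun h => hne (Subtype.ext h))
    have h3 : edist (ψ q) (ψ q') ≤ ENNReal.ofReal δ :=
      (Metric.edist_le_ediam_of_mem (hg q) (hqq ▸ hg q')).trans (hU _)
    rw [edist_dist, ENNReal.ofReal_le_ofReal_iff hδ.le] at h3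
    linarith
  simpa using Fintype.card_le_of_injective g hinj

end

theorem tendsto_scale (C : ℝ) (hC : 0 < C) (a : ℕ) (ha : 0 < a) :
    Tendsto (fun t : ℕ => C / 2 ^ (a * t)) atTop (𝓝[>] 0) := by
  apply tendsto_nhdsWithin_of_tendsto_nhds_of_eventually_within
  · have h1 : Tendsto (fun t : ℕ => ((2 : ℝ) ^ a) ^ t) atTop atTop :=
      tendsto_pow_atTop_atTop_of_one_lt (one_lt_pow₀ (by norm_num) ha.ne')
    have h2 := h1.const_div_atTop C
    simpa [pow_mul] using h2
  · exact Eventually.of_forall fun t => by simp only [Set.mem_Ioi]; positivity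

theorem log_scale (C : ℝ) (hC : 0 < C) (k : ℕ) :
    -Real.log (C / 2 ^ k) = k * Real.log 2 - Real.log C := by
  rw [Real.log_div hC.ne' (by positivity), Real.log_pow]; ring

theorem lowerBox_le {X : Type*} [PseudoEMetricSpace X] (K : Set X) (C D : ℝ) (hC : 0 < C)
    (hD : 0 < D)
    (h : ∀ T : ℕ, ∃ t ≥ T, (coverNum K (C / 2 ^ (512 * t)) : ℝ) ≤ D * 2 ^ (1261 * t)) :
    lowerBox K ≤ ((247 / 100 : ℝ) : EReal) := by
  apply liminf_le_of_frequently_le'
  have hl : (1 / 2 : ℝ) < Real.log 2 := by have := Real.log_two_gt_d9; linarith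
  have h1 : ∃ᶠ t : ℕ in atTop,
      Real.log (coverNum K (C / 2 ^ (512 * t))) / (-Real.log (C / 2 ^ (512 * t))) ≤ 247 / 100 := by
    rw [frequently_atTop]
    intro T
    obtain ⟨t, ht, hN⟩ := h (max T ⌈|Real.log D| + 3 * |Real.log C| + 1⌉₊)
    refine ⟨t, le_trans (le_max_left _ _) ht, ?_⟩
    have ht2 : |Real.log D| + 3 * |Real.log C| + 1 ≤ t :=
      Nat.ceil_le.1 (le_trans (le_max_right _ _) ht)
    have hD1 := le_abs_self (Real.log D)
    have hD2 := neg_abs_le (Real.log D)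
    have hC1 := le_abs_self (Real.log C)
    have hC2 := abs_nonneg (Real.log C)
    have hD3 := abs_nonneg (Real.log D)
    have ht0 : (0 : ℝ) ≤ t := Nat.cast_nonneg t
    have htl : (t : ℝ) * (1 / 2) ≤ t * Real.log 2 := mul_le_mul_of_nonneg_left hl.le ht0
    rw [log_scale C hC]
    push_cast
    have hpos : 0 < 512 * (t : ℝ) * Real.log 2 - Real.log C := by nlinarith
    rw [div_le_iff₀ hpos]
    have hb : Real.log (coverNum K (C / 2 ^ (512 * t))) ≤ Real.log D + 1261 * t * Real.log 2 := by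
      rcases Nat.eq_zero_or_pos (coverNum K (C / 2 ^ (512 * t))) with h0 | h0
      · rw [h0]; simp only [Nat.cast_zero, Real.log_zero]; nlinarith
      · have h2 := Real.log_le_log (by exact_mod_cast h0) hN
        rw [Real.log_mul hD.ne' (by positivity), Real.log_pow] at h2
        push_cast at h2
        exact h2
    nlinarith
  have h2 := (tendsto_scale C hC 512 (by norm_num)).frequently
    (p := fun δ => Real.log (coverNum K δ) / (-Real.log δ) ≤ 247 / 100) h1
  exact h2.mono fun δ hδ => EReal.coe_le_coe_iff.2 hδ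

theorem le_upperBox {X : Type*} [PseudoEMetricSpace X] (K : Set X) (C D : ℝ) (hC : 0 < C)
    (hD : 0 < D)
    (h : ∀ T : ℕ, ∃ m ≥ T, D * 2 ^ (20 * m) ≤ (coverNum K (C / 2 ^ (8 * m)) : ℝ)) :
    ((249 / 100 : ℝ) : EReal) ≤ upperBox K := by
  apply le_limsup_of_frequently_le'
  have hl : (1 / 2 : ℝ) < Real.log 2 := by have := Real.log_two_gt_d9; linarith
  have h1 : ∃ᶠ m : ℕ in atTop,
      249 / 100 ≤ Real.log (coverNum K (C / 2 ^ (8 * m))) / (-Real.log (C / 2 ^ (8 * m))) := by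
    rw [frequently_atTop]
    intro T
    obtain ⟨t, ht, hN⟩ := h (max T ⌈25 * (|Real.log D| + 3 * |Real.log C| + 1)⌉₊)
    refine ⟨t, le_trans (le_max_left _ _) ht, ?_⟩
    have ht2 : 25 * (|Real.log D| + 3 * |Real.log C| + 1) ≤ t :=
      Nat.ceil_le.1 (le_trans (le_max_right _ _) ht)
    have hD2 := neg_abs_le (Real.log D)
    have hC1 := le_abs_self (Real.log C)
    have hC3 := neg_abs_le (Real.log C)
    have hC2 := abs_nonneg (Real.log C)
    have hD3 := abs_nonneg (Real.log D)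
    have ht0 : (0 : ℝ) ≤ t := Nat.cast_nonneg t
    have htl : (t : ℝ) * (1 / 2) ≤ t * Real.log 2 := mul_le_mul_of_nonneg_left hl.le ht0
    rw [log_scale C hC]
    push_cast
    have hpos : 0 < 8 * (t : ℝ) * Real.log 2 - Real.log C := by nlinarith
    rw [le_div_iff₀ hpos]
    have h2 := Real.log_le_log (by positivity) hN
    rw [Real.log_mul hD.ne' (by positivity), Real.log_pow] at h2
    push_cast at h2
    nlinarith
  have h2 := (tendsto_scale C hC 8 (by norm_num)).frequently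
    (p := fun δ => 249 / 100 ≤ Real.log (coverNum K δ) / (-Real.log δ)) h1
  exact h2.mono fun δ hδ => EReal.coe_le_coe_iff.2 hδ

theorem lt_of_bounds {a b : EReal} (h1 : a ≤ ((247 / 100 : ℝ) : EReal))
    (h2 : ((249 / 100 : ℝ) : EReal) ≤ b) : a < b :=
  lt_of_le_of_lt h1 (lt_of_lt_of_le (EReal.coe_lt_coe_iff.2 (by norm_num)) h2)

end Pool.Agent.H484Z.Box
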