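import Mathlib

set_option autoImplicit false

namespace Pool.Agent.H484Z.Box

open Filter Topology

/-- `coverNum K δ` is the least number of sets of diameter at most `δ` needed to cover `K`. -/
noncomputable def coverNum {X : Type*} [PseudoEMetricSpace X] (K : Set X) (δ : ℝ) : ℕ :=
  sInf {n : ℕ | ∃ U : Fin n → Set X,
    (∀ i, Metric.ediam (U i) ≤ ENNReal.ofReal δ) ∧ K ⊆ ⋃ i, U i}

/-- The lower box dimension: `liminf` of `log N_δ(K) / (-log δ)` as `δ → 0+`. -/
noncomputable def lowerBox {X : Type*} [PseudoEMetricSpace X] (K : Set X) : EReal :=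
  liminf (fun δ : ℝ => ((Real.log (coverNum K δ) / (-Real.log δ) : ℝ) : EReal)) (𝓝[>] 0)

/-- The upper box dimension: `limsup` of `log N_δ(K) / (-log δ)` as `δ → 0+`. -/
noncomputable def upperBox {X : Type*} [PseudoEMetricSpace X] (K : Set X) : EReal :=
  limsup (fun δ : ℝ => ((Real.log (coverNum K δ) / (-Real.log δ) : ℝ) : EReal)) (𝓝[>] 0)

end Pool.Agent.H484Z.Box
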