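import Mathlib

set_option autoImplicit false

namespace Pool.Agent.H484Z.Box

open scoped ContDiff

section
variable {X : Type*} [NormedAddCommGroup X] [NormedSpace ℝ X]

/-- `f` is a `C^∞` diffeomorphism: `f` and its inverse are `C^∞`. -/
def IsSmoothDiffeo (f : Equiv.Perm X) : Prop :=
  ContDiff ℝ ∞ f ∧ ContDiff ℝ ∞ f.symm

/-- Over `Λ` the tangent space splits continuously as `Es x ⊕ Eu x`: the projection `P x` onto
`Es x` along `Eu x` depends continuously on `x ∈ Λ`. -/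
def IsContSplitting (Λ : Set X) (Es Eu : X → Submodule ℝ X) : Prop :=
  ∃ P : X → (X →L[ℝ] X), ContinuousOn P Λ ∧ ∀ x ∈ Λ,
    IsCompl (Es x) (Eu x) ∧ (∀ v ∈ Es x, P x v = v) ∧ ∀ v ∈ Eu x, P x v = 0

/-- The field of subspaces `D` is invariant under the derivative of `g` over `Λ`. -/
def IsInvariantField (g : X → X) (Λ : Set X) (D : X → Submodule ℝ X) : Prop :=
  ∀ x ∈ Λ, (fderiv ℝ g x) '' (D x) = D (g x)

/-- The derivatives of the iterates of `g` contract the field `D` uniformly exponentially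
over `Λ`. -/
def ContractsField (g : X → X) (Λ : Set X) (D : X → Submodule ℝ X) : Prop :=
  ∃ C lam : ℝ, 0 < C ∧ 0 < lam ∧ lam < 1 ∧ ∀ x ∈ Λ, ∀ k : ℕ, ∀ v ∈ D x,
    ‖fderiv ℝ (g^[k]) x v‖ ≤ C * lam ^ k * ‖v‖

/-- `Λ` is hyperbolic for `f`: a continuous `Df`-invariant splitting `Es ⊕ Eu` over `Λ`, with
`Df^k` contracting `Es` and `Df^(-k)` contracting `Eu` uniformly exponentially. -/
def IsHyperbolicSet (f : Equiv.Perm X) (Λ : Set X) : Prop :=
  ∃ Es Eu : X → Submodule ℝ X, IsContSplitting Λ Es Eu ∧ IsInvariantField f Λ Es ∧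
    IsInvariantField f Λ Eu ∧ ContractsField f Λ Es ∧ ContractsField f.symm Λ Eu

/-- `Λ` is a basic set of `f`: nonempty, compact, invariant, hyperbolic, locally maximal, and
`f` restricted to `Λ` is topologically transitive. -/
def IsBasicSet (f : Equiv.Perm X) (Λ : Set X) : Prop :=
  Λ.Nonempty ∧ IsCompact Λ ∧ f '' Λ = Λ ∧ IsHyperbolicSet f Λ ∧
    (∃ U : Set X, IsOpen U ∧ Λ ⊆ U ∧ Λ = ⋂ k : ℤ, (f ^ k) '' U) ∧
    ∀ U V : Set X, IsOpen U → IsOpen V → (U ∩ Λ).Nonempty →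
      (V ∩ Λ).Nonempty → ∃ k : ℕ, (f^[k] '' (U ∩ Λ) ∩ V).Nonempty

end

/-- The local stable manifold of size `ε` of `x`: the points whose forward orbit stays within
`ε` of the forward orbit of `x`. -/
def localStable {X : Type*} [PseudoMetricSpace X] (f : X → X) (ε : ℝ) (x : X) : Set X :=
  {y | ∀ k : ℕ, dist (f^[k] x) (f^[k] y) ≤ ε}

end Pool.Agent.H484Z.Box
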