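import Mathlib

set_option autoImplicit false

namespace Pool.Agent.H484Z.Box

open scoped ContDiff

/-- The flat torus `ℝ^n / ℤ^n`: the `ℓ²` product of `n` circles `ℝ / ℤ`; its distance is the
Riemannian distance of the flat metric. -/
abbrev Torus (n : ℕ) := PiLp 2 (fun _ : Fin n => UnitAddCircle)

/-- The covering map `ℝ^n → ℝ^n / ℤ^n` (a local isometry). -/
noncomputable def torusProj {n : ℕ} (x : EuclideanSpace ℝ (Fin n)) : Torus n :=
  WithLp.toLp 2 (fun i => ((x i : ℝ) : UnitAddCircle))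

/-- A self-map `f` of the flat torus is smooth and expanding: it lifts to a `C^∞` map `F` of
`ℝ^n` whose derivative expands every vector by a factor at least `lam > 1`. -/
def IsSmoothExpanding {n : ℕ} (f : Torus n → Torus n) : Prop :=
  ∃ (F : EuclideanSpace ℝ (Fin n) → EuclideanSpace ℝ (Fin n)) (lam : ℝ),
    ContDiff ℝ ∞ F ∧ (∀ x, torusProj (F x) = f (torusProj x)) ∧ 1 < lam ∧
    ∀ x v, lam * ‖v‖ ≤ ‖fderiv ℝ F x v‖

/-- `Λ` is a repeller of `f`: nonempty, compact, `f(Λ) = Λ`, and it is the set of points whose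
forward orbit stays in some open neighbourhood `U` of `Λ`. -/
def IsRepeller {X : Type*} [TopologicalSpace X] (f : X → X) (Λ : Set X) : Prop :=
  Λ.Nonempty ∧ IsCompact Λ ∧ f '' Λ = Λ ∧
    ∃ U : Set X, IsOpen U ∧ Λ ⊆ U ∧ Λ = {x | x ∈ U ∧ ∀ k : ℕ, f^[k] x ∈ U}

end Pool.Agent.H484Z.Box
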