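import Pool.Agent.H484Z.Box.Affine
import Pool.Agent.H484Z.Box.DefsH

set_option autoImplicit false

namespace Pool.Agent.H484Z.Box

open Filter Topology Finset
open scoped ContDiff

noncomputable def hF (τ c : ℝ) (x : E 5) : E 5 :=
  WithLp.toLp 2 ![1 / 2 * x 0 + plat (TT τ 0) (x 4), 1 / 16 * x 1 + plat (TT τ 1) (x 4),
    1 / 256 * x 2 + plat (TT τ 2) (x 4), c * x 3 + plat uu (x 4),
    c⁻¹ * (x 4 - plat uu (c * x 3 + plat uu (x 4)))]

noncomputable def hG (τ c : ℝ) (y : E 5) : E 5 :=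
  WithLp.toLp 2 ![2 * (y 0 - plat (TT τ 0) (c * y 4 + plat uu (y 3))),
    16 * (y 1 - plat (TT τ 1) (c * y 4 + plat uu (y 3))),
    256 * (y 2 - plat (TT τ 2) (c * y 4 + plat uu (y 3))),
    c⁻¹ * (y 3 - plat uu (c * y 4 + plat uu (y 3))), c * y 4 + plat uu (y 3)]

theorem hGF (τ c : ℝ) (hc : c ≠ 0) (x : E 5) : hG τ c (hF τ c x) = x := by
  have h4 : c * hF τ c x 4 + plat uu (hF τ c x 3) = x 4 := by
    show c * (c⁻¹ * (x 4 - plat uu (c * x 3 + plat uu (x 4)))) +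
      plat uu (c * x 3 + plat uu (x 4)) = x 4
    field_simp
    ring
  unfold hG
  rw [h4]
  ext j
  fin_cases j
  · show 2 * (1 / 2 * x 0 + plat (TT τ 0) (x 4) - plat (TT τ 0) (x 4)) = x 0
    ring
  · show 16 * (1 / 16 * x 1 + plat (TT τ 1) (x 4) - plat (TT τ 1) (x 4)) = x 1
    ring
  · show 256 * (1 / 256 * x 2 + plat (TT τ 2) (x 4) - plat (TT τ 2) (x 4)) = x 2
    ring
  · show c⁻¹ * (c * x 3 + plat uu (x 4) - plat uu (x 4)) = x 3
    field_simp
    ring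
  · rfl

theorem hFG (τ c : ℝ) (hc : c ≠ 0) (y : E 5) : hF τ c (hG τ c y) = y := by
  have h4 : hG τ c y 4 = c * y 4 + plat uu (y 3) := rfl
  have h3 : c * hG τ c y 3 + plat uu (c * y 4 + plat uu (y 3)) = y 3 := by
    show c * (c⁻¹ * (y 3 - plat uu (c * y 4 + plat uu (y 3)))) +
      plat uu (c * y 4 + plat uu (y 3)) = y 3
    field_simp
    ring
  unfold hF
  rw [h4, h3]
  ext j
  fin_cases j
  · show 1 / 2 * (2 * (y 0 - plat (TT τ 0) (c * y 4 + plat uu (y 3)))) +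
      plat (TT τ 0) (c * y 4 + plat uu (y 3)) = y 0
    ring
  · show 1 / 16 * (16 * (y 1 - plat (TT τ 1) (c * y 4 + plat uu (y 3)))) +
      plat (TT τ 1) (c * y 4 + plat uu (y 3)) = y 1
    ring
  · show 1 / 256 * (256 * (y 2 - plat (TT τ 2) (c * y 4 + plat uu (y 3)))) +
      plat (TT τ 2) (c * y 4 + plat uu (y 3)) = y 2
    ring
  · rfl
  · show c⁻¹ * (c * y 4 + plat uu (y 3) - plat uu (y 3)) = y 4
    field_simp
    ring

noncomputable def hP (τ c : ℝ) (hc : c ≠ 0) : Equiv.Perm (E 5) :=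
  ⟨hF τ c, hG τ c, hGF τ c hc, hFG τ c hc⟩

theorem cd (i : Fin 5) : ContDiff ℝ ∞ (fun x : E 5 => x i) :=
  (EuclideanSpace.proj (𝕜 := ℝ) i : E 5 →L[ℝ] ℝ).contDiff

theorem hF_smooth (τ c : ℝ) : ContDiff ℝ ∞ (hF τ c) := by
  rw [contDiff_euclidean]
  intro i
  fin_cases i
  · exact (contDiff_const.mul (cd 0)).add ((plat_smooth _).comp (cd 4))
  · exact (contDiff_const.mul (cd 1)).add ((plat_smooth _).comp (cd 4))
  · exact (contDiff_const.mul (cd 2)).add ((plat_smooth _).comp (cd 4))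
  · exact (contDiff_const.mul (cd 3)).add ((plat_smooth _).comp (cd 4))
  · exact contDiff_const.mul ((cd 4).sub ((plat_smooth _).comp
      ((contDiff_const.mul (cd 3)).add ((plat_smooth _).comp (cd 4)))))

theorem hG_smooth (τ c : ℝ) : ContDiff ℝ ∞ (hG τ c) := by
  have hv : ContDiff ℝ ∞ (fun y : E 5 => c * y 4 + plat uu (y 3)) :=
    (contDiff_const.mul (cd 4)).add ((plat_smooth _).comp (cd 3))
  rw [contDiff_euclidean]
  intro i
  fin_cases i
  · exact contDiff_const.mul ((cd 0).sub ((plat_smooth _).comp hv))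
  · exact contDiff_const.mul ((cd 1).sub ((plat_smooth _).comp hv))
  · exact contDiff_const.mul ((cd 2).sub ((plat_smooth _).comp hv))
  · exact contDiff_const.mul ((cd 3).sub ((plat_smooth _).comp hv))
  · exact hv

noncomputable def l5 (c : ℝ) : Fin 5 → ℝ := ![1 / 2, 1 / 16, 1 / 256, c, c⁻¹]

noncomputable def m5 (c : ℝ) : Fin 5 → ℝ := ![2, 16, 256, c⁻¹, c]

noncomputable def b5 (τ c : ℝ) (s : Dg) : E 5 :=
  WithLp.toLp 2 ![TT τ 0 s, TT τ 1 s, TT τ 2 s, uu s, -(c⁻¹ * uu s)]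

noncomputable def a5 (τ c : ℝ) (s : Dg) : E 5 :=
  WithLp.toLp 2 ![-(2 * TT τ 0 s), -(16 * TT τ 1 s), -(256 * TT τ 2 s), -(c⁻¹ * uu s), uu s]

noncomputable def P5 (τ c : ℝ) (a : (ℕ → Dg) × (ℕ → Dg)) : E 5 :=
  WithLp.toLp 2 ![crd τ c 0 a.1, crd τ c 1 a.1, crd τ c 2 a.1, crd τ c 3 a.1, crd τ c 3 a.2]

def fw (a : (ℕ → Dg) × (ℕ → Dg)) : (ℕ → Dg) × (ℕ → Dg) :=
  (cons (a.2 0) a.1, fun i => a.2 (i + 1))

def bw (a : (ℕ → Dg) × (ℕ → Dg)) : (ℕ → Dg) × (ℕ → Dg) :=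
  (fun i => a.1 (i + 1), cons (a.1 0) a.2)

theorem fw_bw (a : (ℕ → Dg) × (ℕ → Dg)) : fw (bw a) = a := by
  refine Prod.ext (funext fun i => ?_) rfl
  cases i <;> rfl

section
variable {τ c : ℝ}

theorem Par.hF_aff (h : Par τ c) (x : E 5) (s : Dg) (h3 : |x 3| ≤ 1)
    (h4 : |x 4 - uu s| ≤ 1 / 2 ^ 20) : hF τ c x = diagL (l5 c) x + b5 τ c s := by
  have e : plat uu (c * x 3 + uu s) = uu s := by
    apply plat_eq
    rw [add_sub_cancel_right, abs_mul, abs_of_pos h.pos]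
    exact le_trans (mul_le_of_le_one_right h.pos.le h3) h.c20
  unfold hF
  rw [plat_eq _ h4, plat_eq _ h4, plat_eq _ h4, plat_eq _ h4, e]
  ext j
  fin_cases j
  · rfl
  · rfl
  · rfl
  · rfl
  · show c⁻¹ * (x 4 - uu s) = c⁻¹ * x 4 + -(c⁻¹ * uu s)
    ring

theorem Par.hG_aff (h : Par τ c) (y : E 5) (s : Dg) (h4 : |y 4| ≤ 1)
    (h3 : |y 3 - uu s| ≤ 1 / 2 ^ 20) : hG τ c y = diagL (m5 c) y + a5 τ c s := by
  have e : |c * y 4 + uu s - uu s| ≤ 1 / 2 ^ 20 := by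
    rw [add_sub_cancel_right, abs_mul, abs_of_pos h.pos]
    exact le_trans (mul_le_of_le_one_right h.pos.le h4) h.c20
  unfold hG
  rw [plat_eq _ h3, plat_eq _ e, plat_eq _ e, plat_eq _ e, plat_eq _ e]
  ext j
  fin_cases j
  · show 2 * (y 0 - TT τ 0 s) = 2 * y 0 + -(2 * TT τ 0 s)
    ring
  · show 16 * (y 1 - TT τ 1 s) = 16 * y 1 + -(16 * TT τ 1 s)
    ring
  · show 256 * (y 2 - TT τ 2 s) = 256 * y 2 + -(256 * TT τ 2 s)
    ring
  · show c⁻¹ * (y 3 - uu s) = c⁻¹ * y 3 + -(c⁻¹ * uu s)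
    ring
  · rfl

theorem Par.near20 (h : Par τ c) (s : ℕ → Dg) : |crd τ c 3 s - uu (s 0)| < 1 / 2 ^ 20 := by
  have h1 := h.crd_near s
  have h2 := h.c20
  have h3 := h.pos
  linarith

theorem Par.lt_one (h : Par τ c) (j : Fin 4) (s : ℕ → Dg) : |crd τ c j s| < 1 :=
  lt_of_le_of_lt (h.crd_abs j s) (by norm_num)

theorem Par.hF_P5 (h : Par τ c) (a : (ℕ → Dg) × (ℕ → Dg)) :
    hF τ c (P5 τ c a) = P5 τ c (fw a) := by
  rw [h.hF_aff _ (a.2 0) (h.lt_one 3 a.1).le (h.near20 a.2).le]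
  ext j
  fin_cases j
  · exact ((h.crd_succ 0 (cons (a.2 0) a.1)).trans (add_comm _ _)).symm
  · exact ((h.crd_succ 1 (cons (a.2 0) a.1)).trans (add_comm _ _)).symm
  · exact ((h.crd_succ 2 (cons (a.2 0) a.1)).trans (add_comm _ _)).symm
  · exact ((h.crd_succ 3 (cons (a.2 0) a.1)).trans (add_comm _ _)).symm
  · show c⁻¹ * crd τ c 3 a.2 + -(c⁻¹ * uu (a.2 0)) = crd τ c 3 (fun i => a.2 (i + 1))
    rw [h.crd_succ 3 a.2]
    show c⁻¹ * (uu (a.2 0) + c * _) + _ = _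
    have := h.pos.ne'
    field_simp
    ring

theorem Par.hG_P5 (h : Par τ c) (a : (ℕ → Dg) × (ℕ → Dg)) :
    hG τ c (P5 τ c a) = P5 τ c (bw a) := by
  conv_lhs => rw [← fw_bw a, ← h.hF_P5]
  exact hGF τ c h.pos.ne' _

theorem Par.hF_iter (h : Par τ c) (k : ℕ) (a : (ℕ → Dg) × (ℕ → Dg)) :
    (hF τ c)^[k] (P5 τ c a) = P5 τ c (fw^[k] a) := by
  induction k generalizing a with
  | zero => rfl
  | succ k ih => rw [Function.iterate_succ_apply, h.hF_P5, ih]; rfl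

theorem Par.P5_cont (h : Par τ c) : Continuous (P5 τ c) := by
  refine (PiLp.continuous_toLp 2 _).comp (continuous_pi fun j => ?_)
  fin_cases j
  · exact (h.crd_cont 0).comp continuous_fst
  · exact (h.crd_cont 1).comp continuous_fst
  · exact (h.crd_cont 2).comp continuous_fst
  · exact (h.crd_cont 3).comp continuous_fst
  · exact (h.crd_cont 3).comp continuous_snd

theorem Par.hF_deriv (h : Par τ c) (a : (ℕ → Dg) × (ℕ → Dg)) :
    HasFDerivAt (hF τ c) (diagL (l5 c)) (P5 τ c a) := by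
  refine ((diagL (l5 c)).hasFDerivAt.add_const (b5 τ c (a.2 0))).congr_of_eventuallyEq ?_
  have h1 : ∀ᶠ x : E 5 in 𝓝 (P5 τ c a), |x 3| < 1 :=
    (isOpen_lt (cd 3).continuous.abs continuous_const).mem_nhds (h.lt_one 3 a.1)
  have h2 : ∀ᶠ x : E 5 in 𝓝 (P5 τ c a), |x 4 - uu (a.2 0)| < 1 / 2 ^ 20 :=
    (isOpen_lt ((cd 4).continuous.sub continuous_const).abs continuous_const).mem_nhds
      (h.near20 a.2)
  filter_upwards [h1, h2] with x h1 h2
  exact h.hF_aff x _ h1.le h2.le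

theorem Par.hG_deriv (h : Par τ c) (a : (ℕ → Dg) × (ℕ → Dg)) :
    HasFDerivAt (hG τ c) (diagL (m5 c)) (P5 τ c a) := by
  refine ((diagL (m5 c)).hasFDerivAt.add_const (a5 τ c (a.1 0))).congr_of_eventuallyEq ?_
  have h1 : ∀ᶠ x : E 5 in 𝓝 (P5 τ c a), |x 4| < 1 :=
    (isOpen_lt (cd 4).continuous.abs continuous_const).mem_nhds (h.lt_one 3 a.2)
  have h2 : ∀ᶠ x : E 5 in 𝓝 (P5 τ c a), |x 3 - uu (a.1 0)| < 1 / 2 ^ 20 :=
    (isOpen_lt ((cd 3).continuous.sub continuous_const).abs continuous_const).mem_nhds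
      (h.near20 a.1)
  filter_upwards [h1, h2] with x h1 h2
  exact h.hG_aff x _ h1.le h2.le

end

theorem iter_deriv {Ω : Type*} (g : E 5 → E 5) (p : Ω → E 5) (σ : Ω → Ω) (l : Fin 5 → ℝ)
    (h1 : ∀ a, g (p a) = p (σ a)) (h2 : ∀ a, HasFDerivAt g (diagL l) (p a)) (k : ℕ) (a : Ω) :
    HasFDerivAt (g^[k]) (diagL (fun j => l j ^ k)) (p a) := by
  induction k generalizing a with
  | zero =>
    have : diagL (fun j => l j ^ 0) = ContinuousLinearMap.id ℝ (E 5) := by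
      ext x j; simp
    rw [this]
    exact hasFDerivAt_id _
  | succ k ih =>
    have h3 := ih (σ a)
    rw [← h1] at h3
    have h4 := h3.comp (p a) (h2 a)
    have : diagL (fun j => l j ^ (k + 1)) = (diagL (fun j => l j ^ k)).comp (diagL l) := by
      ext x j; simp [pow_succ, mul_assoc]
    rw [this, Function.iterate_succ]
    exact h4

def subS : Submodule ℝ (E 5) where
  carrier := {v | v 4 = 0}
  add_mem' := fun {a b} ha hb => by
    simp only [Set.mem_ofPred_eq, PiLp.add_apply] at *; rw [ha, hb, add_zero]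
  zero_mem' := rfl
  smul_mem' := fun r a ha => by
    simp only [Set.mem_ofPred_eq, PiLp.smul_apply] at *; rw [ha, smul_zero]

def subU : Submodule ℝ (E 5) where
  carrier := {v | ∀ j, j ≠ 4 → v j = 0}
  add_mem' := fun {a b} ha hb j hj => by
    simp only [PiLp.add_apply]; rw [ha j hj, hb j hj, add_zero]
  zero_mem' := fun _ _ => rfl
  smul_mem' := fun r a ha j hj => by
    simp only [PiLp.smul_apply]; rw [ha j hj, smul_zero]

theorem mem_subS (v : E 5) : v ∈ subS ↔ v 4 = 0 := Iff.rfl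
theorem mem_subU (v : E 5) : v ∈ subU ↔ ∀ j, j ≠ 4 → v j = 0 := Iff.rfl

theorem isCompl_sub : IsCompl subS subU := by
  constructor
  · rw [Submodule.disjoint_def]
    intro v h1 h2
    ext j
    by_cases hj : j = 4
    · rw [hj]; exact h1
    · exact h2 j hj
  · rw [codisjoint_iff, eq_top_iff]
    intro v _
    refine Submodule.mem_sup.2 ⟨diagL (fun j => if j = 4 then 0 else 1) v, ?_,
      diagL (fun j => if j = 4 then 1 else 0) v, ?_, ?_⟩
    · rw [mem_subS]; simp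
    · rw [mem_subU]; intro j hj; simp [hj]
    · ext j
      by_cases hj : j = 4 <;> simp [hj]

theorem image_subS (l : Fin 5 → ℝ) (hl : ∀ j, l j ≠ 0) :
    diagL l '' (subS : Set (E 5)) = subS := by
  ext v
  constructor
  · rintro ⟨w, hw, rfl⟩
    show l 4 * w 4 = 0
    rw [(mem_subS w).1 hw, mul_zero]
  · intro hv
    refine ⟨diagL (fun j => (l j)⁻¹) v, ?_, ?_⟩
    · show (l 4)⁻¹ * v 4 = 0
      rw [(mem_subS v).1 hv, mul_zero]
    · ext j; simp [hl j]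

theorem image_subU (l : Fin 5 → ℝ) (hl : ∀ j, l j ≠ 0) :
    diagL l '' (subU : Set (E 5)) = subU := by
  ext v
  constructor
  · rintro ⟨w, hw, rfl⟩ j hj
    show l j * w j = 0
    rw [(mem_subU w).1 hw j hj, mul_zero]
  · intro hv
    refine ⟨diagL (fun j => (l j)⁻¹) v, ?_, ?_⟩
    · intro j hj
      show (l j)⁻¹ * v j = 0
      rw [(mem_subU v).1 hv j hj, mul_zero]
    · ext j; simp [hl j]

theorem Par.hyperbolic {τ c : ℝ} (h : Par τ c) :
    IsHyperbolicSet (hP τ c h.pos.ne') (Set.range (P5 τ c)) := by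
  have hc := h.pos
  have hc2 : c ≤ 1 / 2 := h.rr_le 3
  have hl : ∀ j, l5 c j ≠ 0 := by
    intro j; fin_cases j <;> simp [l5, hc.ne']
  have hd : ∀ a, fderiv ℝ (hP τ c h.pos.ne') (P5 τ c a) = diagL (l5 c) :=
    fun a => (h.hF_deriv a).fderiv
  refine ⟨fun _ => subS, fun _ => subU,
    ⟨fun _ => diagL (fun j => if j = 4 then 0 else 1), continuousOn_const,
      fun _ _ => ⟨isCompl_sub, ?_, ?_⟩⟩, ?_, ?_,
    ⟨1, 1 / 2, one_pos, by norm_num, by norm_num, ?_⟩,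
    ⟨1, 1 / 2, one_pos, by norm_num, by norm_num, ?_⟩⟩
  · intro v hv
    ext j
    by_cases hj : j = 4
    · subst hj; simp [(mem_subS v).1 hv]
    · simp [hj]
  · intro v hv
    ext j
    by_cases hj : j = 4
    · simp [hj]
    · simp [(mem_subU v).1 hv j hj]
  · rintro _ ⟨a, rfl⟩
    rw [hd]; exact image_subS _ hl
  · rintro _ ⟨a, rfl⟩
    rw [hd]; exact image_subU _ hl
  · rintro _ ⟨a, rfl⟩ k v hv
    have h1 : fderiv ℝ ((hP τ c h.pos.ne')^[k]) (P5 τ c a) = diagL (fun j => l5 c j ^ k) :=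
      (iter_deriv (hF τ c) (P5 τ c) fw (l5 c) h.hF_P5 h.hF_deriv k a).fderiv
    rw [h1, one_mul]
    apply norm_le_mul (by positivity)
    intro j
    rw [diagL_apply, abs_mul]
    by_cases hj : j = 4
    · subst hj; simp [(mem_subS v).1 hv]
    · apply mul_le_mul_of_nonneg_right _ (abs_nonneg _)
      rw [abs_pow]
      apply pow_le_pow_left₀ (abs_nonneg _)
      fin_cases j
      · show |(1 / 2 : ℝ)| ≤ 1 / 2
        norm_num
      · show |(1 / 16 : ℝ)| ≤ 1 / 2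
        norm_num
      · show |(1 / 256 : ℝ)| ≤ 1 / 2
        norm_num
      · show |c| ≤ 1 / 2
        rwa [abs_of_pos hc]
      · exact absurd rfl hj
  · rintro _ ⟨a, rfl⟩ k v hv
    have h1 : fderiv ℝ ((hP τ c h.pos.ne').symm^[k]) (P5 τ c a) = diagL (fun j => m5 c j ^ k) :=
      (iter_deriv (hG τ c) (P5 τ c) bw (m5 c) h.hG_P5 h.hG_deriv k a).fderiv
    rw [h1, one_mul]
    apply norm_le_mul (by positivity)
    intro j
    rw [diagL_apply, abs_mul]
    by_cases hj : j = 4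
    · subst hj
      apply mul_le_mul_of_nonneg_right _ (abs_nonneg _)
      rw [abs_pow]
      apply pow_le_pow_left₀ (abs_nonneg _)
      show |c| ≤ 1 / 2
      rwa [abs_of_pos hc]
    · simp [(mem_subU v).1 hv j hj]

end Pool.Agent.H484Z.Box
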