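import Pool.Agent.H484Z.Box.Horse

set_option autoImplicit false

namespace Pool.Agent.H484Z.Box

open Filter Topology Finset
open scoped ContDiff

theorem fw_snd (k : ℕ) (a : (ℕ → Dg) × (ℕ → Dg)) (i : ℕ) : (fw^[k] a).2 i = a.2 (i + k) := by
  induction k generalizing a with
  | zero => rfl
  | succ k ih => rw [Function.iterate_succ_apply, ih]; rfl

theorem fw_fst (k : ℕ) (a : (ℕ → Dg) × (ℕ → Dg)) (i : ℕ) (hi : i < k) :
    (fw^[k] a).1 i = a.2 (k - 1 - i) := by
  induction k generalizing i with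
  | zero => omega
  | succ k ih =>
    rw [Function.iterate_succ_apply']
    cases i with
    | zero =>
      show (fw^[k] a).2 0 = _
      rw [fw_snd]; exact congrArg a.2 (by omega)
    | succ i =>
      show (fw^[k] a).1 i = _
      rw [ih i (by omega)]; exact congrArg a.2 (by omega)

section
variable {τ c : ℝ}

theorem Par.zpow_mem (h : Par τ c) (k : ℤ) (a : (ℕ → Dg) × (ℕ → Dg)) :
    (hP τ c h.pos.ne' ^ k) (P5 τ c a) ∈ Set.range (P5 τ c) := by
  induction k using Int.induction_on generalizing a with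
  | zero => exact ⟨a, rfl⟩
  | succ k ih =>
    rw [zpow_add_one, Equiv.Perm.mul_apply]
    have : hP τ c h.pos.ne' (P5 τ c a) = P5 τ c (fw a) := h.hF_P5 a
    rw [this]; exact ih _
  | pred k ih =>
    rw [zpow_sub_one, Equiv.Perm.mul_apply]
    have : (hP τ c h.pos.ne')⁻¹ (P5 τ c a) = P5 τ c (bw a) := h.hG_P5 a
    rw [this]; exact ih _

theorem Par.locMax (h : Par τ c) : ∃ U : Set (E 5), IsOpen U ∧ Set.range (P5 τ c) ⊆ U ∧
    Set.range (P5 τ c) = ⋂ k : ℤ, (hP τ c h.pos.ne' ^ k) '' U := by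
  let U : Set (E 5) := {x | (∀ j, |x j| < 1) ∧ ∃ s, |x 4 - uu s| < 1 / 2 ^ 20}
  have hU : IsOpen U := by
    have e : U = (⋂ j, {x : E 5 | |x j| < 1}) ∩ ⋃ s, {x : E 5 | |x 4 - uu s| < 1 / 2 ^ 20} := by
      ext y; simp [U]
    rw [e]
    refine IsOpen.inter (isOpen_iInter_of_finite fun j => ?_) (isOpen_iUnion fun s => ?_)
    · exact isOpen_lt (cd j).continuous.abs continuous_const
    · exact isOpen_lt ((cd 4).continuous.sub continuous_const).abs continuous_const
  have hsub : Set.range (P5 τ c) ⊆ U := by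
    rintro _ ⟨a, rfl⟩
    refine ⟨fun j => ?_, a.2 0, h.near20 a.2⟩
    fin_cases j
    · exact h.lt_one 0 a.1
    · exact h.lt_one 1 a.1
    · exact h.lt_one 2 a.1
    · exact h.lt_one 3 a.1
    · exact h.lt_one 3 a.2
  set f := hP τ c h.pos.ne' with hf
  refine ⟨U, hU, hsub, ?_⟩
  ext x
  simp only [Set.mem_iInter]
  constructor
  · rintro ⟨a, rfl⟩ k
    refine ⟨(f ^ (-k)) (P5 τ c a), hsub (h.zpow_mem _ a), ?_⟩
    rw [← Equiv.Perm.mul_apply, ← zpow_add, add_neg_cancel, zpow_zero, Equiv.Perm.one_apply]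
  · intro hx
    have hy : ∀ k : ℤ, (f ^ k) x ∈ U := by
      intro k
      obtain ⟨u, hu, hux⟩ := hx (-k)
      rw [← hux, ← Equiv.Perm.mul_apply, ← zpow_add, add_neg_cancel, zpow_zero,
        Equiv.Perm.one_apply]
      exact hu
    choose s hs using fun k => (hy k).2
    have hrec : ∀ k : ℤ, (f ^ (k + 1)) x = diagL (l5 c) ((f ^ k) x) + b5 τ c (s k) := by
      intro k
      rw [add_comm k 1, zpow_add, zpow_one, Equiv.Perm.mul_apply]
      exact h.hF_aff _ _ ((hy k).1 3).le (hs k).le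
    have hpast : ∀ (j : Fin 4) (j' : Fin 5), (∀ (y : E 5) (t : Dg),
        (diagL (l5 c) y + b5 τ c t) j' = TT τ j t + rr c j * y j') →
        crd τ c j (fun i => s (-((i : ℤ) + 1))) = x j' := by
      intro j j' hj
      have := val_unique (h.rr_pos j).le (h.rr_le j)
        (fun i : ℕ => h.TT_abs j (s (-((i : ℤ) + 1)))) (fun i : ℕ => (f ^ (-(i : ℤ))) x j') 1
        (fun i => ((hy _).1 j').le) (fun i => by
          have h1 := hrec (-((i : ℤ) + 1))
          rw [show -((i : ℤ) + 1) + 1 = -(i : ℤ) by ring] at h1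
          rw [h1, hj]
          push_cast
          rfl)
      simp only [Nat.cast_zero, neg_zero, zpow_zero, Equiv.Perm.one_apply] at this
      exact this.symm
    refine ⟨(fun i => s (-((i : ℤ) + 1)), fun i => s i), ?_⟩
    ext j
    fin_cases j
    · exact hpast 0 0 (fun y t => add_comm _ _)
    · exact hpast 1 1 (fun y t => add_comm _ _)
    · exact hpast 2 2 (fun y t => add_comm _ _)
    · exact hpast 3 3 (fun y t => add_comm _ _)
    · have := val_unique (h.rr_pos 3).le (h.rr_le 3)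
        (fun i : ℕ => h.TT_abs 3 (s (i : ℤ))) (fun i : ℕ => (f ^ (i : ℤ)) x 4) 1
        (fun i => ((hy _).1 4).le) (fun i => by
          push_cast
          rw [hrec]
          show _ = uu (s i) + c * (c⁻¹ * (f ^ (i : ℤ)) x 4 + -(c⁻¹ * uu (s i)))
          have := h.pos.ne'
          field_simp
          ring)
      simp only [Nat.cast_zero, zpow_zero, Equiv.Perm.one_apply] at this
      exact this.symm

theorem Par.trans (h : Par τ c) (U V : Set (E 5)) (hU : IsOpen U) (hV : IsOpen V)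
    (h1 : (U ∩ Set.range (P5 τ c)).Nonempty) (h2 : (V ∩ Set.range (P5 τ c)).Nonempty) :
    ∃ k : ℕ, ((hF τ c)^[k] '' (U ∩ Set.range (P5 τ c)) ∩ V).Nonempty := by
  obtain ⟨_, ha, a, rfl⟩ := h1
  obtain ⟨_, hb, b, rfl⟩ := h2
  let w : ℕ → (ℕ → Dg) × (ℕ → Dg) := fun N =>
    (a.1, cat N a.2 (cat N (fun i => b.1 (N - 1 - i)) b.2))
  have t1 : Tendsto w atTop (𝓝 a) := by
    refine Tendsto.prodMk_nhds tendsto_const_nhds (tendsto_pi_nhds.2 fun i => ?_)
    refine tendsto_const_nhds.congr' ?_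
    filter_upwards [eventually_gt_atTop i] with N hN
    exact (cat_lt _ _ hN).symm
  have t2 : Tendsto (fun N => fw^[N + N] (w N)) atTop (𝓝 b) := by
    refine Tendsto.prodMk_nhds (tendsto_pi_nhds.2 fun i => ?_) (tendsto_pi_nhds.2 fun i => ?_)
    · refine tendsto_const_nhds.congr' ?_
      filter_upwards [eventually_gt_atTop i] with N hN
      show b.1 i = (fw^[N + N] (w N)).1 i
      rw [fw_fst _ _ _ (by omega), show N + N - 1 - i = (N - 1 - i) + N by omega]
      show b.1 i = cat N a.2 _ (N - 1 - i + N)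
      rw [cat_add, cat_lt _ _ (by omega)]
      exact congrArg b.1 (by omega)
    · refine tendsto_const_nhds.congr' (Eventually.of_forall fun N => ?_)
      show b.2 i = (fw^[N + N] (w N)).2 i
      rw [fw_snd, ← add_assoc]
      show b.2 i = cat N a.2 _ (i + N + N)
      rw [cat_add, cat_add]
  have e1 := (h.P5_cont.tendsto a |>.comp t1).eventually (hU.mem_nhds ha)
  have e2 := (h.P5_cont.tendsto b |>.comp t2).eventually (hV.mem_nhds hb)
  obtain ⟨N, hN1, hN2⟩ := (e1.and e2).exists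
  exact ⟨N + N, _, ⟨P5 τ c (w N), ⟨hN1, _, rfl⟩, h.hF_iter _ _⟩, hN2⟩

theorem Par.basic (h : Par τ c) : IsBasicSet (hP τ c h.pos.ne') (Set.range (P5 τ c)) := by
  refine ⟨Set.range_nonempty _, isCompact_range h.P5_cont, ?_, h.hyperbolic, h.locMax, h.trans⟩
  ext x
  constructor
  · rintro ⟨_, ⟨a, rfl⟩, rfl⟩
    exact ⟨fw a, (h.hF_P5 a).symm⟩
  · rintro ⟨a, rfl⟩
    refine ⟨_, ⟨bw a, rfl⟩, ?_⟩
    have : hP τ c h.pos.ne' (P5 τ c (bw a)) = P5 τ c (fw (bw a)) := h.hF_P5 _
    rw [this, fw_bw]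

theorem Par.low5 (h : Par τ c) (K : Set (E 5)) (hK : K ⊆ Set.range (P5 τ c)) :
    lowerBox K ≤ ((247 / 100 : ℝ) : EReal) := by
  refine upper h.good _ (P5 τ c) hK 6 (by norm_num) ?_
  intro t a b η h1 h2 hx hy hz hη
  have h3 := h.crd_all t a.1 b.1 η h1 hx hy hz hη
  have := dist_le_of (x := P5 τ c a) (y := P5 τ c b) (le_trans (by positivity) hη) (fun j => by
    fin_cases j
    · exact h3 0
    · exact h3 1
    · exact h3 2
    · exact h3 3
    · exact h.crd_close t a.2 b.2 η h2 hη)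
  norm_num at this ⊢
  exact this

theorem P5_dist (j : Fin 4) (a b : (ℕ → Dg) × (ℕ → Dg)) :
    |crd τ c j a.1 - crd τ c j b.1| ≤ dist (P5 τ c a) (P5 τ c b) := by
  fin_cases j
  · exact abs_le_dist (P5 τ c a) (P5 τ c b) 0
  · exact abs_le_dist (P5 τ c a) (P5 τ c b) 1
  · exact abs_le_dist (P5 τ c a) (P5 τ c b) 2
  · exact abs_le_dist (P5 τ c a) (P5 τ c b) 3

theorem Par.up5 (h : Par τ c) (a : (ℕ → Dg) × (ℕ → Dg)) (ε : ℝ) (hε : 0 < ε) (K : Set (E 5))
    (hK : K ⊆ Set.range (P5 τ c))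
    (hK' : Set.range (P5 τ c) ∩ localStable (hF τ c) ε (P5 τ c a) ⊆ K) :
    ((249 / 100 : ℝ) : EReal) ≤ upperBox K := by
  obtain ⟨M, hM⟩ := exists_pow_lt_of_lt_one (show 0 < ε / 6 by positivity)
    (show (1 / 2 : ℝ) < 1 by norm_num)
  have hc := h.pos
  refine h.lower' K ((isCompact_range h.P5_cont).totallyBounded.subset hK)
    (fun s => P5 τ c (cat M a.1 s, a.2)) (fun s => hK' ⟨⟨_, rfl⟩, fun k => ?_⟩) (c ^ M)
    (by positivity) ?_
  · rw [h.hF_iter, h.hF_iter]
    have key : ∀ k, (fw^[k] a).2 = (fw^[k] (cat M a.1 s, a.2)).2 ∧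
        ∀ i < M, (fw^[k] a).1 i = (fw^[k] (cat M a.1 s, a.2)).1 i := by
      intro k
      induction k with
      | zero => exact ⟨rfl, fun i hi => (cat_lt _ _ hi).symm⟩
      | succ k ih =>
        rw [Function.iterate_succ_apply', Function.iterate_succ_apply']
        refine ⟨funext fun i => congrFun ih.1 (i + 1), fun i hi => ?_⟩
        cases i with
        | zero => exact congrFun ih.1 0
        | succ i => exact ih.2 i (by omega)
    obtain ⟨k1, k2⟩ := key k
    have h3 : ∀ j, |crd τ c j (fw^[k] a).1 - crd τ c j (fw^[k] (cat M a.1 s, a.2)).1| ≤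
        (1 / 2) ^ M := by
      intro j
      have h4 := val_sub_le (h.rr_pos j).le (h.rr_le j) (fun i => h.TT_abs j ((fw^[k] a).1 i))
        (fun i => h.TT_abs j ((fw^[k] (cat M a.1 s, a.2)).1 i)) M (fun i hi => by rw [k2 i hi])
      have h5 : rr c j ^ M ≤ (1 / 2) ^ M := pow_le_pow_left₀ (h.rr_pos j).le (h.rr_le j) M
      have h6 : 0 ≤ rr c j ^ M := pow_nonneg (h.rr_pos j).le M
      unfold crd
      linarith
    have := dist_le_of (x := P5 τ c (fw^[k] a)) (y := P5 τ c (fw^[k] (cat M a.1 s, a.2)))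
      (η := (1 / 2) ^ M) (by positivity) (fun j => by
        fin_cases j
        · exact h3 0
        · exact h3 1
        · exact h3 2
        · exact h3 3
        · show |crd τ c 3 (fw^[k] a).2 - crd τ c 3 (fw^[k] (cat M a.1 s, a.2)).2| ≤ _
          rw [k1, sub_self, abs_zero]; positivity)
    norm_num at this hM ⊢
    linarith
  · intro j s s'
    refine le_trans ?_ (P5_dist j (cat M a.1 s, a.2) (cat M a.1 s', a.2))
    have h1 : crd τ c j (cat M a.1 s) - crd τ c j (cat M a.1 s') =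
        rr c j ^ M * (crd τ c j s - crd τ c j s') := by
      unfold crd
      rw [val_cat (h.rr_pos j).le (h.rr_le j) _ (h.TT_abs j),
        val_cat (h.rr_pos j).le (h.rr_le j) _ (h.TT_abs j)]
      ring
    show _ ≤ |crd τ c j (cat M a.1 s) - crd τ c j (cat M a.1 s')|
    rw [h1, abs_mul, abs_of_pos (pow_pos (h.rr_pos j) M)]
    apply mul_le_mul_of_nonneg_right _ (abs_nonneg _)
    apply pow_le_pow_left₀ hc.le
    have h2 := h.c20
    fin_cases j
    · exact h2.trans (by show (1 : ℝ) / 2 ^ 20 ≤ 1 / 2; norm_num)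
    · exact h2.trans (by show (1 : ℝ) / 2 ^ 20 ≤ 1 / 16; norm_num)
    · exact h2.trans (by show (1 : ℝ) / 2 ^ 20 ≤ 1 / 256; norm_num)
    · exact le_rfl

end

theorem basic_main : ∃ (f : Equiv.Perm (E 5)) (Λ : Set (E 5)),
    IsSmoothDiffeo f ∧ IsBasicSet f Λ ∧ lowerBox Λ < upperBox Λ := by
  obtain ⟨τ, μ, h, -⟩ := exists_par 0
  exact ⟨hP τ _ h.pos.ne', Set.range (P5 τ _), ⟨hF_smooth _ _, hG_smooth _ _⟩, h.basic,
    lt_of_bounds (h.low5 _ subset_rfl)
      (h.up5 (fun _ => .inr 0, fun _ => .inr 0) 1 one_pos _ subset_rfl Set.inter_subset_left)⟩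

theorem slice_main : ∃ (f : Equiv.Perm (E 5)) (Λ : Set (E 5)),
    IsSmoothDiffeo f ∧ IsBasicSet f Λ ∧ ∀ x ∈ Λ, ∀ ε : ℝ, 0 < ε →
      lowerBox (Λ ∩ localStable f ε x) < upperBox (Λ ∩ localStable f ε x) := by
  obtain ⟨τ, μ, h, -⟩ := exists_par 0
  refine ⟨hP τ _ h.pos.ne', Set.range (P5 τ _), ⟨hF_smooth _ _, hG_smooth _ _⟩, h.basic, ?_⟩
  rintro _ ⟨a, rfl⟩ ε hε
  exact lt_of_bounds (h.low5 _ Set.inter_subset_left)
    (h.up5 a ε hε _ Set.inter_subset_left subset_rfl)

end Pool.Agent.H484Z.Box
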