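import Pool.Agent.H484Z.Box.Upper

set_option autoImplicit false

namespace Pool.Agent.H484Z.Box

open Filter Topology Finset
open scoped ContDiff

def idx : Dg → ℕ
  | .inl x => 512 * x.1 + 256 * x.2.1 + x.2.2
  | .inr k => 1024 + k

theorem idx_le (s : Dg) : idx s ≤ 1038 := by
  rcases s with ⟨a, b, r⟩ | k
  · have := a.2; have := b.2; have := r.2; simp only [idx]; omega
  · have := k.2; simp only [idx]; omega

theorem idx_inj : Function.Injective idx := by
  rintro (⟨a, b, r⟩ | k) (⟨a', b', r'⟩ | k') h <;> simp only [idx] at h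
  · have := a.2; have := b.2; have := r.2; have := a'.2; have := b'.2; have := r'.2
    have e1 : a = a' := Fin.ext (by omega)
    have e2 : b = b' := Fin.ext (by omega)
    have e3 : r = r' := Fin.ext (by omega)
    rw [e1, e2, e3]
  · have := a.2; have := b.2; have := r.2; omega
  · have := a'.2; have := b'.2; have := r'.2; omega
  · have e1 : k = k' := Fin.ext (by omega)
    rw [e1]

noncomputable def uu (s : Dg) : ℝ := idx s / 8192

theorem uu_nonneg (s : Dg) : 0 ≤ uu s := by unfold uu; positivity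

theorem uu_le (s : Dg) : uu s ≤ 1 / 7 := by
  have : (idx s : ℝ) ≤ 1038 := by exact_mod_cast idx_le s
  unfold uu; linarith

theorem uu_sep {s s' : Dg} (h : s ≠ s') : 1 / 8192 ≤ |uu s - uu s'| := by
  have := sep_nat 1 le_rfl 8192 (by norm_num) _ _ (fun e => h (idx_inj e))
  simpa [uu] using this

noncomputable def bump (w : ℝ) : ℝ :=
  Real.smoothTransition ((Real.cos (2 * Real.pi * w) - (1 - 1 / 2 ^ 25)) * 2 ^ 26)

theorem bump_smooth : ContDiff ℝ ∞ bump := by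
  unfold bump
  exact Real.smoothTransition.contDiff.comp
    (((Real.contDiff_cos.comp (contDiff_const.mul contDiff_id)).sub contDiff_const).mul
      contDiff_const)

theorem bump_per : Function.Periodic bump 1 := by
  intro w
  unfold bump
  rw [mul_add, mul_one, Real.cos_add_two_pi]

theorem bump_one {w : ℝ} (h : |w| ≤ 1 / 2 ^ 20) : bump w = 1 := by
  apply Real.smoothTransition.one_of_one_le
  have h1 := Real.one_sub_sq_div_two_le_cos (x := 2 * Real.pi * w)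
  have h2 : w ^ 2 ≤ (1 / 2 ^ 20) ^ 2 := by
    rw [← sq_abs]; exact pow_le_pow_left₀ (abs_nonneg _) h 2
  have h3 : Real.pi ^ 2 ≤ 4 ^ 2 := pow_le_pow_left₀ Real.pi_pos.le Real.pi_le_four 2
  have h4 : Real.pi ^ 2 * w ^ 2 ≤ 4 ^ 2 * (1 / 2 ^ 20) ^ 2 :=
    mul_le_mul h3 h2 (by positivity) (by positivity)
  have h5 : (2 * Real.pi * w) ^ 2 = 4 * (Real.pi ^ 2 * w ^ 2) := by ring
  rw [h5] at h1
  norm_num at h4 ⊢
  linarith

theorem bump_zero {w : ℝ} (h : 1 / 2 ^ 14 ≤ |w|) (h' : |w| ≤ 1 / 2) : bump w = 0 := by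
  apply Real.smoothTransition.zero_of_nonpos
  have hpi := Real.pi_pos
  have h1 := Real.cos_le_one_sub_mul_cos_sq (x := 2 * Real.pi * w) (by
    rw [abs_mul, abs_of_pos (by positivity)]
    nlinarith)
  have h2 : (1 / 2 ^ 14 : ℝ) ^ 2 ≤ w ^ 2 := by
    rw [← sq_abs w]; exact pow_le_pow_left₀ (by positivity) h 2
  have h5 : 2 / Real.pi ^ 2 * (2 * Real.pi * w) ^ 2 = 8 * w ^ 2 := by field_simp; ring
  rw [h5] at h1
  norm_num at h2 ⊢
  linarith

noncomputable def plat (g : Dg → ℝ) (w : ℝ) : ℝ := ∑ s, g s * bump (w - uu s)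

theorem plat_smooth (g : Dg → ℝ) : ContDiff ℝ ∞ (plat g) := by
  unfold plat
  exact ContDiff.sum fun s _ =>
    contDiff_const.mul (bump_smooth.comp (contDiff_id.sub contDiff_const))

theorem plat_per (g : Dg → ℝ) : Function.Periodic (plat g) 1 := by
  intro w
  unfold plat
  refine sum_congr rfl fun s _ => ?_
  rw [show w + 1 - uu s = (w - uu s) + 1 by ring, bump_per]

theorem plat_eq (g : Dg → ℝ) {w : ℝ} {s : Dg} (h : |w - uu s| ≤ 1 / 2 ^ 20) :
    plat g w = g s := by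
  unfold plat
  rw [sum_eq_single s]
  · rw [bump_one h, mul_one]
  · intro s' _ hs
    have h1 := uu_sep hs
    have h2 := uu_nonneg s
    have h3 := uu_nonneg s'
    have h4 := uu_le s
    have h5 := uu_le s'
    rw [bump_zero, mul_zero]
    · rw [abs_le] at h
      rw [le_abs] at h1 ⊢
      norm_num at h h1 ⊢
      rcases h1 with h1 | h1
      · right; linarith [h.2]
      · left; linarith [h.1]
    · rw [abs_le] at h ⊢
      norm_num at h ⊢
      constructor <;> linarith [h.1, h.2]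
  · intro h; exact absurd (mem_univ s) h

abbrev E (n : ℕ) := EuclideanSpace ℝ (Fin n)

noncomputable def diagL {n : ℕ} (a : Fin n → ℝ) : E n →L[ℝ] E n :=
  LinearMap.toContinuousLinearMap
    { toFun := fun x => WithLp.toLp 2 (fun i => a i * x i)
      map_add' := fun x y => by ext i; simp [mul_add]
      map_smul' := fun c x => by ext i; simp; ring }

@[simp] theorem diagL_apply {n : ℕ} (a : Fin n → ℝ) (x : E n) (i : Fin n) :
    diagL a x i = a i * x i := rfl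

theorem norm_mono {n : ℕ} {x y : E n} (h : ∀ i, |x i| ≤ |y i|) : ‖x‖ ≤ ‖y‖ := by
  rw [EuclideanSpace.norm_eq, EuclideanSpace.norm_eq]
  apply Real.sqrt_le_sqrt
  exact sum_le_sum fun i _ => pow_le_pow_left₀ (norm_nonneg _) (h i) 2

theorem norm_le_mul {n : ℕ} {x y : E n} {ρ : ℝ} (hρ : 0 ≤ ρ) (h : ∀ i, |x i| ≤ ρ * |y i|) :
    ‖x‖ ≤ ρ * ‖y‖ := by
  have := norm_mono (x := x) (y := ρ • y) (fun i => by
    simpa [abs_mul, abs_of_nonneg hρ] using h i)
  rwa [norm_smul, Real.norm_eq_abs, abs_of_nonneg hρ] at this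

theorem mul_le_norm {n : ℕ} {x y : E n} {ρ : ℝ} (hρ : 0 ≤ ρ) (h : ∀ i, ρ * |y i| ≤ |x i|) :
    ρ * ‖y‖ ≤ ‖x‖ := by
  have := norm_mono (x := ρ • y) (y := x) (fun i => by
    simpa [abs_mul, abs_of_nonneg hρ] using h i)
  rwa [norm_smul, Real.norm_eq_abs, abs_of_nonneg hρ] at this

theorem abs_le_dist {n : ℕ} (x y : E n) (i : Fin n) : |x i - y i| ≤ dist x y := by
  rw [← Real.dist_eq]; exact PiLp.dist_apply_le x y i

theorem dist_le_of {n : ℕ} {x y : E n} {η : ℝ} (hη : 0 ≤ η) (h : ∀ i, |x i - y i| ≤ η) :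
    dist x y ≤ (n + 1) * η := by
  rw [EuclideanSpace.dist_eq]
  apply Real.sqrt_le_iff.2
  refine ⟨by positivity, ?_⟩
  calc ∑ i, dist (x i) (y i) ^ 2 ≤ ∑ _i : Fin n, η ^ 2 :=
        sum_le_sum fun i _ => pow_le_pow_left₀ dist_nonneg (by rw [Real.dist_eq]; exact h i) 2
    _ = n * η ^ 2 := by simp
    _ ≤ ((n + 1) * η) ^ 2 := by
        rw [mul_pow]
        apply mul_le_mul_of_nonneg_right _ (by positivity)
        have : (0 : ℝ) ≤ n := Nat.cast_nonneg n
        nlinarith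

noncomputable def TT (τ : ℝ) : Fin 4 → Dg → ℝ :=
  ![fun s => 1 / 2 ^ 20 * dx τ s, fun s => 1 / 2 ^ 20 * dy s, fun s => 1 / 2 ^ 20 * dz s, uu]

noncomputable def rr (c : ℝ) : Fin 4 → ℝ := ![1 / 2, 1 / 16, 1 / 256, c]

noncomputable def crd (τ c : ℝ) (j : Fin 4) (s : ℕ → Dg) : ℝ :=
  val (rr c j) (fun i => TT τ j (s i))

/-- Standing assumptions on the parameters. -/
structure Par (τ c : ℝ) : Prop where
  good : Good τ
  pos : 0 < c
  small : c ≤ 1 / 2 ^ 512

section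
variable {τ c : ℝ}

theorem Par.c20 (h : Par τ c) : c ≤ 1 / 2 ^ 20 := by
  refine h.small.trans (one_div_le_one_div_of_le (by positivity) ?_)
  exact pow_le_pow_right₀ (by norm_num) (by norm_num)

theorem Par.rr_pos (h : Par τ c) (j : Fin 4) : 0 < rr c j := by
  have := h.pos
  fin_cases j <;> simp [rr, this]

theorem Par.rr_le (h : Par τ c) (j : Fin 4) : rr c j ≤ 1 / 2 := by
  have := h.c20
  fin_cases j <;> simp [rr] <;> norm_num at this ⊢
  linarith

theorem Par.TT_nonneg (h : Par τ c) (j : Fin 4) (s : Dg) : 0 ≤ TT τ j s := by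
  have h1 := dx_nonneg h.good.1 s
  have h2 := uu_nonneg s
  fin_cases j <;> simp [TT, h1, h2]

theorem Par.TT_small (h : Par τ c) (j : Fin 4) (hj : j ≠ 3) (s : Dg) :
    |TT τ j s| ≤ 1 / 2 ^ 12 := by
  have h1 := dx_abs h.good.1 h.good.2.1 s
  have h2 := dy_abs s
  have h3 := dz_abs s
  fin_cases j
  · show |1 / 2 ^ 20 * dx τ s| ≤ _
    rw [abs_mul]; norm_num; linarith
  · show |1 / 2 ^ 20 * (dy s : ℝ)| ≤ _
    rw [abs_mul, abs_of_nonneg (by positivity : (0 : ℝ) ≤ 1 / 2 ^ 20)]; linarith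
  · show |1 / 2 ^ 20 * (dz s : ℝ)| ≤ _
    rw [abs_mul, abs_of_nonneg (by positivity : (0 : ℝ) ≤ 1 / 2 ^ 20)]; linarith
  · exact absurd rfl hj

theorem Par.TT_abs (h : Par τ c) (j : Fin 4) (s : Dg) : |TT τ j s| ≤ 1 / 7 := by
  by_cases hj : j = 3
  · subst hj
    show |uu s| ≤ _
    rw [abs_of_nonneg (uu_nonneg s)]; exact uu_le s
  · exact (h.TT_small j hj s).trans (by norm_num)

theorem Par.crd_abs (h : Par τ c) (j : Fin 4) (s : ℕ → Dg) : |crd τ c j s| ≤ 2 / 7 := by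
  have := val_abs_le (h.rr_pos j).le (h.rr_le j) (fun i => h.TT_abs j (s i))
  unfold crd; linarith

theorem Par.crd_small (h : Par τ c) (j : Fin 4) (hj : j ≠ 3) (s : ℕ → Dg) :
    |crd τ c j s| ≤ 1 / 2 ^ 11 := by
  have := val_abs_le (h.rr_pos j).le (h.rr_le j) (fun i => h.TT_small j hj (s i))
  unfold crd; linarith

theorem Par.crd_nonneg (h : Par τ c) (j : Fin 4) (s : ℕ → Dg) : 0 ≤ crd τ c j s :=
  val_nonneg (h.rr_pos j).le fun i => h.TT_nonneg j (s i)

theorem Par.crd_succ (h : Par τ c) (j : Fin 4) (s : ℕ → Dg) :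
    crd τ c j s = TT τ j (s 0) + rr c j * crd τ c j (fun i => s (i + 1)) :=
  val_succ (h.rr_pos j).le (h.rr_le j) (fun i => h.TT_abs j (s i))

theorem Par.crd_cont (h : Par τ c) (j : Fin 4) : Continuous (crd τ c j) :=
  continuous_val (h.rr_pos j).le (h.rr_le j) (TT τ j) (h.TT_abs j)

theorem Par.crd_near (h : Par τ c) (s : ℕ → Dg) : |crd τ c 3 s - uu (s 0)| ≤ 2 / 7 * c := by
  rw [h.crd_succ 3 s]
  have h1 := h.crd_abs 3 (fun i => s (i + 1))
  have h2 : TT τ 3 (s 0) + rr c 3 * crd τ c 3 (fun i => s (i + 1)) - uu (s 0) =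
      c * crd τ c 3 (fun i => s (i + 1)) := by
    show uu (s 0) + c * _ - uu (s 0) = _
    ring
  rw [h2, abs_mul, abs_of_pos h.pos, mul_comm]
  exact mul_le_mul_of_nonneg_right h1 h.pos.le

theorem crd_zero (s : ℕ → Dg) : crd τ c 0 s = 1 / 2 ^ 20 * cX τ s := val_mul _ _
theorem crd_one (s : ℕ → Dg) : crd τ c 1 s = 1 / 2 ^ 20 * cY s := val_mul _ _
theorem crd_two (s : ℕ → Dg) : crd τ c 2 s = 1 / 2 ^ 20 * cZ s := val_mul _ _

theorem Par.crd_close (h : Par τ c) (t : ℕ) (s s' : ℕ → Dg) (η : ℝ) (hs : ∀ i < t, s i = s' i)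
    (hη : 1 / 2 ^ (512 * t) ≤ η) : |crd τ c 3 s - crd τ c 3 s'| ≤ η := by
  have h1 := val_sub_le (h.rr_pos 3).le (h.rr_le 3) (fun i => h.TT_abs 3 (s i))
    (fun i => h.TT_abs 3 (s' i)) t (fun i hi => by rw [hs i hi])
  have h2 : rr c 3 ^ t ≤ 1 / 2 ^ (512 * t) := by
    rw [pow_mul, ← one_div_pow]
    exact pow_le_pow_left₀ h.pos.le h.small t
  have h3 : (0 : ℝ) ≤ rr c 3 ^ t := pow_nonneg h.pos.le t
  unfold crd
  linarith

theorem Par.crd_all (h : Par τ c) (t : ℕ) (s s' : ℕ → Dg) (η : ℝ) (hs : ∀ i < t, s i = s' i)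
    (hx : |cX τ s - cX τ s'| ≤ η) (hy : |cY s - cY s'| ≤ η) (hz : |cZ s - cZ s'| ≤ η)
    (hη : 1 / 2 ^ (512 * t) ≤ η) (j : Fin 4) : |crd τ c j s - crd τ c j s'| ≤ η := by
  have h0 : 0 ≤ η := le_trans (by positivity) hη
  fin_cases j
  · show |crd τ c 0 s - crd τ c 0 s'| ≤ η
    rw [crd_zero, crd_zero, ← mul_sub, abs_mul]; norm_num; linarith
  · show |crd τ c 1 s - crd τ c 1 s'| ≤ η
    rw [crd_one, crd_one, ← mul_sub, abs_mul]; norm_num; linarith
  · show |crd τ c 2 s - crd τ c 2 s'| ≤ η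
    rw [crd_two, crd_two, ← mul_sub, abs_mul]; norm_num; linarith
  · exact h.crd_close t s s' η hs hη

theorem Par.lower' (h : Par τ c) {Y : Type*} [PseudoMetricSpace Y] (K : Set Y)
    (hK : TotallyBounded K) (ψ : (ℕ → Dg) → Y) (hψ : ∀ s, ψ s ∈ K) (κ : ℝ) (hκ : 0 < κ)
    (hd : ∀ j s s', κ * |crd τ c j s - crd τ c j s'| ≤ dist (ψ s) (ψ s')) :
    ((249 / 100 : ℝ) : EReal) ≤ upperBox K := by
  refine lower h.good K hK ψ hψ (κ * (1 / 2 ^ 20)) (by positivity) ?_ ?_ ?_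
  · intro s s'
    have := hd 0 s s'
    rwa [crd_zero, crd_zero, ← mul_sub, abs_mul, abs_of_pos (by positivity), ← mul_assoc] at this
  · intro s s'
    have := hd 1 s s'
    rwa [crd_one, crd_one, ← mul_sub, abs_mul, abs_of_pos (by positivity), ← mul_assoc] at this
  · intro s s'
    have := hd 2 s s'
    rwa [crd_two, crd_two, ← mul_sub, abs_mul, abs_of_pos (by positivity), ← mul_assoc] at this

end

end Pool.Agent.H484Z.Box
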