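import Mathlib

set_option autoImplicit false

namespace Pool.Agent.H484Z.Box

open Filter Topology Finset

/-- The value of the digit sequence `g` in ratio `r`. -/
noncomputable def val (r : ℝ) (g : ℕ → ℝ) : ℝ := ∑' i, r ^ i * g i

section
variable {r B : ℝ} {g : ℕ → ℝ}

theorem term_le (h0 : 0 ≤ r) (h1 : r ≤ 1 / 2) (hg : ∀ i, |g i| ≤ B) (i : ℕ) :
    ‖r ^ i * g i‖ ≤ (1 / 2) ^ i * B := by
  rw [Real.norm_eq_abs, abs_mul, abs_pow, abs_of_nonneg h0]
  exact mul_le_mul (pow_le_pow_left₀ h0 h1 i) (hg i) (abs_nonneg _) (by positivity)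

theorem geo_summ (B : ℝ) : HasSum (fun i : ℕ => (1 / 2 : ℝ) ^ i * B) (2 * B) :=
  hasSum_geometric_two.mul_right B

theorem summ (h0 : 0 ≤ r) (h1 : r ≤ 1 / 2) (hg : ∀ i, |g i| ≤ B) :
    Summable fun i => r ^ i * g i :=
  Summable.of_norm_bounded (geo_summ B).summable (term_le h0 h1 hg)

theorem val_abs_le (h0 : 0 ≤ r) (h1 : r ≤ 1 / 2) (hg : ∀ i, |g i| ≤ B) : |val r g| ≤ 2 * B :=
  tsum_of_norm_bounded (geo_summ B) (term_le h0 h1 hg)

theorem val_nonneg (h0 : 0 ≤ r) (hg : ∀ i, 0 ≤ g i) : 0 ≤ val r g :=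
  tsum_nonneg fun i => mul_nonneg (pow_nonneg h0 i) (hg i)

theorem val_split (h0 : 0 ≤ r) (h1 : r ≤ 1 / 2) (hg : ∀ i, |g i| ≤ B) (n : ℕ) :
    val r g = ∑ i ∈ range n, r ^ i * g i + r ^ n * val r (fun i => g (i + n)) := by
  unfold val
  rw [← (summ h0 h1 hg).sum_add_tsum_nat_add n, ← tsum_mul_left]
  congr 1
  apply tsum_congr
  intro i
  rw [pow_add]; ring

theorem val_succ (h0 : 0 ≤ r) (h1 : r ≤ 1 / 2) (hg : ∀ i, |g i| ≤ B) :
    val r g = g 0 + r * val r (fun i => g (i + 1)) := by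
  rw [val_split h0 h1 hg 1]; simp

theorem val_zero (r : ℝ) : val r (fun _ => 0) = 0 := by simp [val]

theorem val_sub {g' : ℕ → ℝ} (h0 : 0 ≤ r) (h1 : r ≤ 1 / 2) (hg : ∀ i, |g i| ≤ B)
    (hg' : ∀ i, |g' i| ≤ B) (n : ℕ) (h : ∀ i < n, g i = g' i) :
    val r g - val r g' = r ^ n * (val r (fun i => g (i + n)) - val r (fun i => g' (i + n))) := by
  rw [val_split h0 h1 hg n, val_split h0 h1 hg' n]
  have : ∑ i ∈ range n, r ^ i * g i = ∑ i ∈ range n, r ^ i * g' i :=
    sum_congr rfl fun i hi => by rw [h i (mem_range.1 hi)]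
  rw [this]; ring

theorem val_sub_le {g' : ℕ → ℝ} (h0 : 0 ≤ r) (h1 : r ≤ 1 / 2) (hg : ∀ i, |g i| ≤ B)
    (hg' : ∀ i, |g' i| ≤ B) (n : ℕ) (h : ∀ i < n, g i = g' i) :
    |val r g - val r g'| ≤ r ^ n * (4 * B) := by
  rw [val_sub h0 h1 hg hg' n h, abs_mul, abs_of_nonneg (pow_nonneg h0 n)]
  apply mul_le_mul_of_nonneg_left _ (pow_nonneg h0 n)
  have h2 := val_abs_le h0 h1 (g := fun i => g (i + n)) (fun i => hg _)
  have h3 := val_abs_le h0 h1 (g := fun i => g' (i + n)) (fun i => hg' _)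
  have h4 := abs_sub (val r (fun i => g (i + n))) (val r (fun i => g' (i + n)))
  linarith

theorem val_unique (h0 : 0 ≤ r) (h1 : r ≤ 1 / 2) (hg : ∀ i, |g i| ≤ B) (y : ℕ → ℝ) (C : ℝ)
    (hy : ∀ i, |y i| ≤ C) (h : ∀ i, y i = g i + r * y (i + 1)) : y 0 = val r g := by
  have key : ∀ n, y 0 = ∑ i ∈ range n, r ^ i * g i + r ^ n * y n := by
    intro n
    induction n with
    | zero => simp
    | succ n ih => rw [sum_range_succ, ih, h n, pow_succ]; ring
  have h2 : ∀ n, |y 0 - val r g| ≤ (1 / 2) ^ n * (C + 2 * B) := by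
    intro n
    rw [key n, val_split h0 h1 hg n]
    have h3 := val_abs_le h0 h1 (g := fun i => g (i + n)) (fun i => hg _)
    have h4 := abs_sub (y n) (val r (fun i => g (i + n)))
    have h5 : ∑ i ∈ range n, r ^ i * g i + r ^ n * y n -
        (∑ i ∈ range n, r ^ i * g i + r ^ n * val r (fun i => g (i + n))) =
        r ^ n * (y n - val r (fun i => g (i + n))) := by ring
    rw [h5, abs_mul, abs_of_nonneg (pow_nonneg h0 n)]
    exact mul_le_mul (pow_le_pow_left₀ h0 h1 n) (by linarith [hy n]) (abs_nonneg _)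
      (by positivity)
  have h6 : Tendsto (fun n : ℕ => (1 / 2 : ℝ) ^ n * (C + 2 * B)) atTop (𝓝 0) := by
    simpa using (tendsto_pow_atTop_nhds_zero_of_lt_one (r := (1 / 2 : ℝ)) (by norm_num)
      (by norm_num)).mul_const (C + 2 * B)
  have h7 := ge_of_tendsto' h6 h2
  have h8 := abs_nonpos_iff.1 h7
  linarith

theorem val_mul (c : ℝ) (g : ℕ → ℝ) : val r (fun i => c * g i) = c * val r g := by
  unfold val
  rw [← tsum_mul_left]
  exact tsum_congr fun i => by ring

end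

theorem continuous_val {ι : Type*} [TopologicalSpace ι] [DiscreteTopology ι] {r B : ℝ}
    (h0 : 0 ≤ r) (h1 : r ≤ 1 / 2) (d : ι → ℝ) (hd : ∀ a, |d a| ≤ B) :
    Continuous fun s : ℕ → ι => val r (fun i => d (s i)) := by
  unfold val
  refine continuous_tsum (u := fun i => (1 / 2 : ℝ) ^ i * B) (fun i => ?_) (geo_summ B).summable
    (fun i s => term_le h0 h1 (g := fun i => d (s i)) (fun i => hd _) i)
  exact continuous_const.mul ((continuous_of_discreteTopology (f := d)).comp (continuous_apply i))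

/-- The first `n` letters of `p` followed by `q`. -/
def cat {ι : Type*} (n : ℕ) (p q : ℕ → ι) : ℕ → ι := fun i => if i < n then p i else q (i - n)

theorem cat_lt {ι : Type*} {n i : ℕ} (p q : ℕ → ι) (h : i < n) : cat n p q i = p i := by
  simp [cat, h]

theorem cat_add {ι : Type*} (n i : ℕ) (p q : ℕ → ι) : cat n p q (i + n) = q i := by
  simp [cat]

theorem val_cat {ι : Type*} {r B : ℝ} (h0 : 0 ≤ r) (h1 : r ≤ 1 / 2) (d : ι → ℝ)
    (hd : ∀ a, |d a| ≤ B) (n : ℕ) (p q : ℕ → ι) :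
    val r (fun i => d (cat n p q i)) =
      ∑ i ∈ range n, r ^ i * d (p i) + r ^ n * val r (fun i => d (q i)) := by
  rw [val_split h0 h1 (g := fun i => d (cat n p q i)) (fun i => hd _) n]
  congr 1
  · exact sum_congr rfl fun i hi => by rw [cat_lt p q (mem_range.1 hi)]
  · simp only [cat_add]

theorem digits_le (b v n : ℕ) : ∑ i ∈ range n, (v / b ^ i % b) * b ^ i = v % b ^ n := by
  induction n with
  | zero => simp [Nat.mod_one]
  | succ n ih => rw [sum_range_succ, ih, Nat.mod_pow_succ]; ring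

theorem exists_digits (b : ℕ) (hb : 0 < b) (n v : ℕ) (hv : v < b ^ n) :
    ∃ d : ℕ → Fin b, ∑ i ∈ range n, (1 / (b : ℝ)) ^ i * ((d i : ℕ) : ℝ) = b * v / b ^ n := by
  refine ⟨fun i => ⟨v / b ^ (n - 1 - i) % b, Nat.mod_lt _ hb⟩, ?_⟩
  have h1 := digits_le b v n
  rw [Nat.mod_eq_of_lt hv, ← sum_range_reflect] at h1
  have hb' : (0 : ℝ) < b := by exact_mod_cast hb
  have h2 : (v : ℝ) = ∑ i ∈ range n, ((v / b ^ (n - 1 - i) % b : ℕ) : ℝ) * (b : ℝ) ^ (n - 1 - i) := by
    exact_mod_cast h1.symm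
  rw [eq_div_iff (by positivity)]
  conv_rhs => rw [h2]
  rw [sum_mul, mul_sum]
  apply sum_congr rfl
  intro i hi
  have hi' := mem_range.1 hi
  have h3 : (b : ℝ) ^ n = b ^ i * (b * b ^ (n - 1 - i)) := by
    rw [← pow_succ', ← pow_add]; congr 1; omega
  rw [h3, one_div, inv_pow]
  field_simp

theorem exists_tau : ∃ τ : ℝ, 0 ≤ τ ∧ τ ≤ 1 / 2 ∧ ∀ T : ℕ, ∃ m ≥ T, ∃ p : ℕ, Odd p ∧
    0 ≤ τ - p / 2 ^ m ∧ τ - p / 2 ^ m ≤ 1 / 2 ^ (520 * m) := by
  have h2 : (1 : ℝ) < 2 := by norm_num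
  have hs1 : LiouvilleNumber.partialSum 2 1 = 1 := by
    simp [LiouvilleNumber.partialSum, sum_range_succ]; norm_num
  have hmono : ∀ k, 1 ≤ LiouvilleNumber.partialSum 2 (k + 1) := by
    intro k
    induction k with
    | zero => simp [hs1]
    | succ k ih =>
      rw [LiouvilleNumber.partialSum_succ]
      have : (0 : ℝ) < 1 / 2 ^ (k + 1 + 1).factorial := by positivity
      linarith
  refine ⟨liouvilleNumber 2 - 1, ?_, ?_, ?_⟩
  · have h3 := LiouvilleNumber.partialSum_add_remainder h2 1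
    have h4 := LiouvilleNumber.remainder_pos h2 1
    linarith
  · have h3 := LiouvilleNumber.partialSum_add_remainder h2 1
    have h4 := LiouvilleNumber.remainder_lt' 1 h2
    norm_num [Nat.factorial] at h4
    linarith
  · intro T
    set k := T + 520 with hk
    obtain ⟨p0, hp0⟩ := LiouvilleNumber.partialSum_eq_rat (m := 2) (by norm_num) k
    have hf : k.factorial < (k + 1).factorial := Nat.factorial_lt_of_lt (by omega) (by omega)
    obtain ⟨e, he⟩ : ∃ e, (k + 1).factorial = k.factorial + (e + 1) :=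
      ⟨(k + 1).factorial - k.factorial - 1, by omega⟩
    set m := (k + 1).factorial with hm
    have hP : LiouvilleNumber.partialSum 2 (k + 1) = ((p0 * 2 ^ (e + 1) + 1 : ℕ) : ℝ) / 2 ^ m := by
      rw [LiouvilleNumber.partialSum_succ]
      push_cast at hp0 ⊢
      rw [hp0, ← hm, he, pow_add]
      field_simp
    have hge : 2 ^ m ≤ p0 * 2 ^ (e + 1) + 1 := by
      have h5 := hmono k
      rw [hP, le_div_iff₀ (by positivity), one_mul] at h5
      exact_mod_cast h5
    have hm1 : 1 ≤ m := Nat.factorial_pos _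
    have h3 := LiouvilleNumber.partialSum_add_remainder h2 (k + 1)
    have h4 := LiouvilleNumber.remainder_pos h2 (k + 1)
    have h5 := LiouvilleNumber.remainder_lt (k + 1) (m := 2) le_rfl
    have h6 : (((p0 * 2 ^ (e + 1) + 1 - 2 ^ m : ℕ) : ℝ)) / 2 ^ m =
        LiouvilleNumber.partialSum 2 (k + 1) - 1 := by
      rw [hP, Nat.cast_sub hge]
      push_cast
      field_simp
    refine ⟨m, ?_, p0 * 2 ^ (e + 1) + 1 - 2 ^ m, ?_, ?_, ?_⟩
    · have := Nat.self_le_factorial (k + 1)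
      omega
    · apply Nat.Odd.sub_even hge
      · apply Even.add_one
        rw [pow_succ, ← mul_assoc]
        exact even_two.mul_left _
      · exact (Nat.even_pow' (by omega)).2 even_two
    · rw [h6]; linarith
    · rw [h6]
      have h7 : (1 : ℝ) / (2 ^ m) ^ (k + 1) ≤ 1 / 2 ^ (520 * m) := by
        rw [← pow_mul]
        apply one_div_le_one_div_of_le (by positivity)
        apply pow_le_pow_right₀ (by norm_num)
        rw [mul_comm 520 m]
        exact Nat.mul_le_mul_left m (by omega)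
      linarith

end Pool.Agent.H484Z.Box
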