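import Pool.Agent.H484Z.Box.Cover
import Pool.Agent.H484Z.Box.Val

set_option autoImplicit false

namespace Pool.Agent.H484Z.Box

open Filter Topology Finset

abbrev Dg := (Fin 2 × Fin 2 × Fin 256) ⊕ Fin 15

def da : Dg → ℕ
  | .inl x => x.1
  | .inr _ => 0

def db : Dg → ℕ
  | .inl x => x.2.1
  | .inr _ => 0

def dy : Dg → ℕ
  | .inl _ => 0
  | .inr k => k + 1

def dz : Dg → ℕ
  | .inl x => x.2.2
  | .inr _ => 0

noncomputable def dx (τ : ℝ) (s : Dg) : ℝ := da s + τ * db s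

theorem da_le (s : Dg) : da s ≤ 1 := by
  rcases s with x | k
  · have := x.1.2; simp only [da]; omega
  · simp [da]

theorem db_le (s : Dg) : db s ≤ 1 := by
  rcases s with x | k
  · have := x.2.1.2; simp only [db]; omega
  · simp [db]

theorem dy_le (s : Dg) : dy s ≤ 15 := by
  rcases s with x | k
  · simp [dy]
  · have := k.2; simp only [dy]; omega

theorem dz_le (s : Dg) : dz s ≤ 255 := by
  rcases s with x | k
  · have := x.2.2.2; simp only [dz]; omega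
  · simp [dz]

theorem dx_nonneg {τ : ℝ} (h0 : 0 ≤ τ) (s : Dg) : 0 ≤ dx τ s := by
  unfold dx; positivity

theorem dx_abs {τ : ℝ} (h0 : 0 ≤ τ) (h1 : τ ≤ 1 / 2) (s : Dg) : |dx τ s| ≤ 2 := by
  rw [abs_of_nonneg (dx_nonneg h0 s)]
  have h2 : (da s : ℝ) ≤ 1 := by exact_mod_cast da_le s
  have h3 : (db s : ℝ) ≤ 1 := by exact_mod_cast db_le s
  have h4 : (0 : ℝ) ≤ db s := Nat.cast_nonneg _
  unfold dx
  nlinarith

theorem dy_abs (s : Dg) : |(dy s : ℝ)| ≤ 15 := by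
  rw [abs_of_nonneg (Nat.cast_nonneg _)]; exact_mod_cast dy_le s

theorem dz_abs (s : Dg) : |(dz s : ℝ)| ≤ 255 := by
  rw [abs_of_nonneg (Nat.cast_nonneg _)]; exact_mod_cast dz_le s

noncomputable def cX (τ : ℝ) (s : ℕ → Dg) : ℝ := val (1 / 2) (fun i => dx τ (s i))
noncomputable def cY (s : ℕ → Dg) : ℝ := val (1 / 16) (fun i => (dy (s i) : ℝ))
noncomputable def cZ (s : ℕ → Dg) : ℝ := val (1 / 256) (fun i => (dz (s i) : ℝ))

/-- The arithmetic property of the parameter. -/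
def Good (τ : ℝ) : Prop := 0 ≤ τ ∧ τ ≤ 1 / 2 ∧ ∀ T : ℕ, ∃ m ≥ T, ∃ p : ℕ, Odd p ∧
    0 ≤ τ - p / 2 ^ m ∧ τ - p / 2 ^ m ≤ 1 / 2 ^ (520 * m)

def sym (w : Fin 16) : Dg :=
  if h : (w : ℕ) = 0 then .inl (0, 0, 0) else .inr ⟨w - 1, by have := w.2; omega⟩

theorem sym_a (w : Fin 16) : da (sym w) = 0 := by
  unfold sym; split_ifs <;> simp [da]

theorem sym_b (w : Fin 16) : db (sym w) = 0 := by
  unfold sym; split_ifs <;> simp [db]

theorem sym_z (w : Fin 16) : dz (sym w) = 0 := by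
  unfold sym; split_ifs <;> simp [dz]

theorem sym_y (w : Fin 16) : dy (sym w) = w := by
  unfold sym; split_ifs with h
  · simp [dy, h]
  · simp only [dy]; omega

theorem exists_pt {τ : ℝ} (h0 : 0 ≤ τ) (h1 : τ ≤ 1 / 2) (m p : ℕ) (hm : 1 ≤ m) (hp : Odd p)
    (he0 : 0 ≤ τ - p / 2 ^ m) (he1 : τ - p / 2 ^ m ≤ 1 / 2 ^ (520 * m))
    (x y z : ℕ) (hx0 : 2 ^ (8 * m - 1) ≤ x) (hx1 : x < 2 ^ (8 * m)) (hy : y < 16 ^ m)
    (hz : z < 256 ^ m) :
    ∃ s : ℕ → Dg, |cX τ s - 2 * x / 2 ^ (8 * m)| ≤ 1 / 2 / 2 ^ (8 * m) ∧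
      cY s = 16 * y / 2 ^ (8 * m) ∧ cZ s = 256 * z / 2 ^ (8 * m) := by
  obtain ⟨q, rfl⟩ : ∃ q, m = q + 1 := ⟨m - 1, by omega⟩
  set m := q + 1 with hmq
  set l := x / 2 ^ (6 * m) with hl
  set l' := x % 2 ^ (6 * m) with hl'
  have hxl : 2 ^ (6 * m) * l + l' = x := Nat.div_add_mod _ _
  have hl1 : l < 2 ^ m * 2 ^ m := by
    apply Nat.div_lt_of_lt_mul
    rw [← pow_add, ← pow_add]
    convert hx1 using 2; ring
  have hl2 : 2 ^ q * 2 ^ m ≤ l := by
    rw [hl, Nat.le_div_iff_mul_le (by positivity), ← pow_add, ← pow_add]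
    convert hx0 using 2; omega
  have hp1 : p ≤ 2 ^ q := by
    have h2 : (p : ℝ) / 2 ^ m ≤ 1 / 2 := by linarith
    rw [div_le_iff₀ (by positivity), hmq, pow_succ] at h2
    have h3 : (p : ℝ) ≤ 2 ^ q := by linarith
    exact_mod_cast h3
  obtain ⟨j, hj, hjm⟩ := Nat.exists_mul_mod_eq_of_coprime (k := 2 ^ m) (n := p) l
    (Nat.Coprime.pow_right _ (Nat.coprime_two_right.2 hp)) (by positivity)
  have hpj : p * j ≤ l := le_trans (Nat.mul_le_mul hp1 hj.le) hl2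
  obtain ⟨i, hi⟩ : 2 ^ m ∣ l - p * j := (Nat.modEq_iff_dvd' hpj).1 hjm
  have hil : 2 ^ m * i + p * j = l := by omega
  have hi1 : i < 2 ^ m := by
    by_contra hcon
    have := Nat.mul_le_mul_left (2 ^ m) (not_lt.1 hcon)
    omega
  obtain ⟨α, hα⟩ := exists_digits 2 (by norm_num) m i hi1
  obtain ⟨β, hβ⟩ := exists_digits 2 (by norm_num) m j hj
  obtain ⟨ρ, hρ⟩ := exists_digits 256 (by norm_num) m z hz
  obtain ⟨ω, hω⟩ := exists_digits 16 (by norm_num) m y hy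
  obtain ⟨γ, hγ⟩ := exists_digits 2 (by norm_num) (6 * m) l' (Nat.mod_lt _ (by positivity))
  push_cast at hα hβ hρ hω hγ
  refine ⟨cat m (fun k => .inl (α k, β k, ρ k)) (cat m (fun k => sym (ω k))
    (cat (6 * m) (fun k => .inl (γ k, 0, 0)) (fun _ => .inl (0, 0, 0)))), ?_, ?_, ?_⟩
  · unfold cX
    rw [val_cat (by norm_num) le_rfl (dx τ) (dx_abs h0 h1),
      val_cat (by norm_num) le_rfl (dx τ) (dx_abs h0 h1),
      val_cat (by norm_num) le_rfl (dx τ) (dx_abs h0 h1)]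
    have e1 : ∑ k ∈ range m, (1 / 2 : ℝ) ^ k * dx τ (.inl (α k, β k, ρ k)) =
        2 * i / 2 ^ m + τ * (2 * j / 2 ^ m) := by
      rw [← hα, ← hβ, mul_sum, ← sum_add_distrib]
      exact sum_congr rfl fun k _ => by simp only [dx, da, db]; ring
    have e2 : ∑ k ∈ range m, (1 / 2 : ℝ) ^ k * dx τ (sym (ω k)) = 0 :=
      sum_eq_zero fun k _ => by simp [dx, sym_a, sym_b]
    have e3 : ∑ k ∈ range (6 * m), (1 / 2 : ℝ) ^ k * dx τ (.inl (γ k, 0, 0)) =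
        2 * l' / 2 ^ (6 * m) := by
      rw [← hγ]
      exact sum_congr rfl fun k _ => by simp [dx, da, db]
    have e4 : val (1 / 2) (fun _ : ℕ => dx τ (.inl (0, 0, 0))) = 0 := by
      simp [dx, da, db, val_zero]
    rw [e1, e2, e3, e4]
    have hP : (0 : ℝ) < 2 ^ m := by positivity
    have c1 : (x : ℝ) = (2 ^ m) ^ 6 * l + l' := by
      rw [← hxl]; push_cast; rw [← pow_mul, mul_comm m 6]
    have c2 : (l : ℝ) = 2 ^ m * i + p * j := by rw [← hil]; push_cast; ring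
    have c3 : (2 : ℝ) ^ (6 * m) = (2 ^ m) ^ 6 := by rw [← pow_mul, mul_comm m 6]
    have c4 : (2 : ℝ) ^ (8 * m) = (2 ^ m) ^ 8 := by rw [← pow_mul, mul_comm m 8]
    have c5 : (1 / 2 : ℝ) ^ m = 1 / 2 ^ m := by rw [one_div, inv_pow, one_div]
    have c6 : 2 * (i : ℝ) / 2 ^ m + τ * (2 * j / 2 ^ m) +
        (1 / 2) ^ m * (0 + (1 / 2) ^ m * (2 * l' / 2 ^ (6 * m) + (1 / 2) ^ (6 * m) * 0)) -
        2 * x / 2 ^ (8 * m) = (τ - p / 2 ^ m) * (2 * (j / 2 ^ m)) := by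
      rw [c1, c2, c3, c4, c5]
      field_simp
      ring
    rw [c6]
    have hj' : (j : ℝ) / 2 ^ m ≤ 1 := by
      rw [div_le_one hP]; exact_mod_cast hj.le
    have hj0 : 0 ≤ (j : ℝ) / 2 ^ m := by positivity
    rw [abs_of_nonneg (by positivity)]
    have c7 : (1 : ℝ) / 2 ^ (520 * m) ≤ 1 / 4 / 2 ^ (8 * m) := by
      rw [div_div]
      apply one_div_le_one_div_of_le (by positivity)
      rw [show (4 : ℝ) = 2 ^ 2 by norm_num, ← pow_add]
      apply pow_le_pow_right₀ (by norm_num)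
      omega
    have c8 : (1 : ℝ) / 2 / 2 ^ (8 * m) = 2 * (1 / 4 / 2 ^ (8 * m)) := by ring
    rw [c8]
    nlinarith
  · unfold cY
    rw [val_cat (by norm_num) (by norm_num) (fun s => (dy s : ℝ)) dy_abs,
      val_cat (by norm_num) (by norm_num) (fun s => (dy s : ℝ)) dy_abs,
      val_cat (by norm_num) (by norm_num) (fun s => (dy s : ℝ)) dy_abs]
    simp only [sym_y]
    rw [hω]
    simp only [dy, Nat.cast_zero, mul_zero, sum_const_zero, val_zero, add_zero, zero_add]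
    have c4 : (2 : ℝ) ^ (8 * m) = 16 ^ m * 16 ^ m := by
      rw [← mul_pow, pow_mul]; norm_num
    rw [c4, one_div, inv_pow]
    field_simp
  · unfold cZ
    rw [val_cat (by norm_num) (by norm_num) (fun s => (dz s : ℝ)) dz_abs,
      val_cat (by norm_num) (by norm_num) (fun s => (dz s : ℝ)) dz_abs,
      val_cat (by norm_num) (by norm_num) (fun s => (dz s : ℝ)) dz_abs]
    simp only [sym_z]
    simp only [dz]
    rw [hρ]
    have c4 : (2 : ℝ) ^ (8 * m) = 256 ^ m := by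
      rw [pow_mul]; norm_num
    simp [val_zero, c4]

theorem sep_nat (c : ℝ) (hc : 1 ≤ c) (e : ℝ) (he : 0 < e) (a b : ℕ) (hab : a ≠ b) :
    c / e ≤ |c * a / e - c * b / e| := by
  have h1 : (1 : ℝ) ≤ |(a : ℝ) - b| := by
    have h2 : (1 : ℤ) ≤ |(a : ℤ) - b| := Int.one_le_abs (by omega)
    exact_mod_cast h2
  have h3 : c * a / e - c * b / e = c / e * ((a : ℝ) - b) := by ring
  rw [h3, abs_mul, abs_of_nonneg (by positivity : 0 ≤ c / e)]
  exact le_mul_of_one_le_right (by positivity) h1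

theorem lower {τ : ℝ} (hτ : Good τ) {Y : Type*} [PseudoMetricSpace Y] (K : Set Y)
    (hK : TotallyBounded K) (ψ : (ℕ → Dg) → Y) (hψ : ∀ s, ψ s ∈ K) (κ : ℝ) (hκ : 0 < κ)
    (hX : ∀ s s', κ * |cX τ s - cX τ s'| ≤ dist (ψ s) (ψ s'))
    (hY : ∀ s s', κ * |cY s - cY s'| ≤ dist (ψ s) (ψ s'))
    (hZ : ∀ s s', κ * |cZ s - cZ s'| ≤ dist (ψ s) (ψ s')) :
    ((249 / 100 : ℝ) : EReal) ≤ upperBox K := by
  obtain ⟨h0, h1, h2⟩ := hτ
  apply le_upperBox K (κ / 2) (1 / 2) (by positivity) (by norm_num)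
  intro T
  obtain ⟨m, hm, p, hp, he0, he1⟩ := h2 (T + 1)
  refine ⟨m, by omega, ?_⟩
  have hm1 : 1 ≤ m := by omega
  let S : Finset (ℕ × ℕ × ℕ) :=
    Ico (2 ^ (8 * m - 1)) (2 ^ (8 * m)) ×ˢ range (16 ^ m) ×ˢ range (256 ^ m)
  have hex : ∀ q : ℕ × ℕ × ℕ, ∃ s : ℕ → Dg, q ∈ S →
      |cX τ s - 2 * q.1 / 2 ^ (8 * m)| ≤ 1 / 2 / 2 ^ (8 * m) ∧
      cY s = 16 * q.2.1 / 2 ^ (8 * m) ∧ cZ s = 256 * q.2.2 / 2 ^ (8 * m) := by
    intro q
    by_cases hq : q ∈ S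
    · simp only [S, mem_product, mem_Ico, mem_range] at hq
      obtain ⟨s, hs⟩ := exists_pt h0 h1 m p hm1 hp he0 he1 q.1 q.2.1 q.2.2 hq.1.1 hq.1.2
        hq.2.1 hq.2.2
      exact ⟨s, fun _ => hs⟩
    · exact ⟨fun _ => .inr 0, fun h => absurd h hq⟩
  choose σ hσ using hex
  have hE : (0 : ℝ) < 2 ^ (8 * m) := by positivity
  have hc := card_le_coverNum K hK (κ / 2 / 2 ^ (8 * m)) (by positivity) S (fun q => ψ (σ q))
    (fun q _ => hψ _) (by
      intro q hq q' hq' hne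
      obtain ⟨a1, a2, a3⟩ := hσ q hq
      obtain ⟨b1, b2, b3⟩ := hσ q' hq'
      have hlt : κ / 2 / 2 ^ (8 * m) < κ * (1 / 2 ^ (8 * m)) := by
        have : κ * (1 / 2 ^ (8 * m)) = 2 * (κ / 2 / 2 ^ (8 * m)) := by ring
        have h5 : 0 < κ / 2 / 2 ^ (8 * m) := by positivity
        linarith
      refine lt_of_lt_of_le hlt ?_
      by_cases c1 : q.1 = q'.1
      · by_cases c2 : q.2.1 = q'.2.1
        · have c3 : q.2.2 ≠ q'.2.2 := fun c3 => hne (Prod.ext c1 (Prod.ext c2 c3))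
          refine le_trans (mul_le_mul_of_nonneg_left ?_ hκ.le) (hZ _ _)
          rw [a3, b3]
          refine le_trans ?_ (sep_nat 256 (by norm_num) _ hE _ _ c3)
          gcongr; norm_num
        · refine le_trans (mul_le_mul_of_nonneg_left ?_ hκ.le) (hY _ _)
          rw [a2, b2]
          refine le_trans ?_ (sep_nat 16 (by norm_num) _ hE _ _ c2)
          gcongr; norm_num
      · refine le_trans (mul_le_mul_of_nonneg_left ?_ hκ.le) (hX _ _)
        have c3 := sep_nat 2 (by norm_num) _ hE _ _ c1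
        have c4 : (2 : ℝ) / 2 ^ (8 * m) = 4 * (1 / 2 / 2 ^ (8 * m)) := by ring
        have c5 : (1 : ℝ) / 2 ^ (8 * m) = 2 * (1 / 2 / 2 ^ (8 * m)) := by ring
        rw [c5]
        rw [c4] at c3
        rw [abs_le] at a1 b1
        rw [le_abs] at c3 ⊢
        rcases c3 with c3 | c3
        · left; linarith [a1.1, b1.2]
        · right; linarith [a1.2, b1.1])
  have hcard : S.card = 2 ^ (20 * m - 1) := by
    simp only [S, card_product, Nat.card_Ico, card_range]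
    obtain ⟨q, rfl⟩ : ∃ q, m = q + 1 := ⟨m - 1, by omega⟩
    have e1 : 2 ^ (8 * (q + 1)) - 2 ^ (8 * (q + 1) - 1) = 2 ^ (8 * q + 7) := by
      rw [show 8 * (q + 1) - 1 = 8 * q + 7 by omega, show 8 * (q + 1) = (8 * q + 7) + 1 by omega,
        pow_succ 2 (8 * q + 7)]
      omega
    rw [e1, show 16 = 2 ^ 4 by norm_num, show 256 = 2 ^ 8 by norm_num, ← pow_mul, ← pow_mul,
      ← pow_add, ← pow_add]
    congr 1
    omega
  rw [hcard] at hc
  have hc' : ((2 ^ (20 * m - 1) : ℕ) : ℝ) ≤ coverNum K (κ / 2 / 2 ^ (8 * m)) := by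
    exact_mod_cast hc
  refine le_trans (le_of_eq ?_) hc'
  push_cast
  rw [show 20 * m = (20 * m - 1) + 1 by omega, pow_succ]
  simp only [Nat.add_sub_cancel]
  ring

end Pool.Agent.H484Z.Box
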