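import Pool.Agent.H484Z.Box.Affine
import Pool.Agent.H484Z.Box.DefsT

set_option autoImplicit false

namespace Pool.Agent.H484Z.Box

open Filter Topology Finset
open scoped ContDiff

theorem proj_apply {n : ℕ} (x : E n) (i : Fin n) :
    torusProj x i = ((x i : ℝ) : UnitAddCircle) := rfl

theorem coe_eq_iff (a b : ℝ) :
    ((a : ℝ) : UnitAddCircle) = (b : UnitAddCircle) ↔ ∃ k : ℤ, b = a + k := by
  rw [QuotientAddGroup.eq, AddSubgroup.mem_zmultiples_iff]
  constructor
  · rintro ⟨k, hk⟩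
    refine ⟨k, ?_⟩
    simp only [zsmul_eq_mul, mul_one] at hk
    linarith
  · rintro ⟨k, hk⟩
    refine ⟨k, ?_⟩
    simp only [zsmul_eq_mul, mul_one]
    linarith

theorem proj_eq_iff {n : ℕ} (x y : E n) :
    torusProj x = torusProj y ↔ ∀ i, ∃ k : ℤ, y i = x i + k := by
  constructor
  · intro h i
    exact (coe_eq_iff _ _).1 (congrArg (fun z : Torus n => z i) h)
  · intro h
    ext i
    exact (coe_eq_iff _ _).2 (h i)

theorem exists_lift (z : UnitAddCircle) (a : ℝ) :
    ∃ x : ℝ, (x : UnitAddCircle) = z ∧ |x - a| = ‖z - (a : UnitAddCircle)‖ := by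
  obtain ⟨t, rfl⟩ := QuotientAddGroup.mk_surjective z
  refine ⟨t - round (t - a), ?_, ?_⟩
  · exact (coe_eq_iff _ _).2 ⟨round (t - a), by ring⟩
  · rw [← AddCircle.coe_sub, UnitAddCircle.norm_eq]
    congr 1; ring

theorem proj_surj {n : ℕ} : Function.Surjective (torusProj (n := n)) := by
  intro y
  choose x hx using fun i => exists_lift (y i) 0
  exact ⟨WithLp.toLp 2 x, by ext i; exact (hx i).1⟩

theorem proj_cont {n : ℕ} : Continuous (torusProj (n := n)) :=
  (PiLp.continuous_toLp 2 _).comp (continuous_pi fun i =>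
    (AddCircle.continuous_mk' 1).comp (PiLp.continuous_apply 2 _ i))

theorem coe_norm_le (a : ℝ) : ‖((a : ℝ) : UnitAddCircle)‖ ≤ |a| :=
  QuotientAddGroup.norm_mk_le_norm

theorem coe_dist (a b : ℝ) :
    dist ((a : ℝ) : UnitAddCircle) (b : UnitAddCircle) = ‖((a - b : ℝ) : UnitAddCircle)‖ := by
  rw [dist_eq_norm, AddCircle.coe_sub]

theorem proj_dist_le {n : ℕ} (x y : E n) : dist (torusProj x) (torusProj y) ≤ dist x y := by
  rw [PiLp.dist_eq_of_L2, PiLp.dist_eq_of_L2]
  apply Real.sqrt_le_sqrt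
  refine sum_le_sum fun i _ => pow_le_pow_left₀ dist_nonneg ?_ 2
  rw [proj_apply, proj_apply, coe_dist, Real.dist_eq]
  exact coe_norm_le _

theorem le_proj_dist {n : ℕ} (x y : E n) (i : Fin n) (h : |x i - y i| ≤ 1 / 2) :
    |x i - y i| ≤ dist (torusProj x) (torusProj y) := by
  refine le_trans (le_of_eq ?_) (PiLp.dist_apply_le (torusProj x) (torusProj y) i)
  rw [proj_apply, proj_apply, coe_dist]
  exact ((AddCircle.norm_coe_eq_abs_iff 1 one_ne_zero).2 (by simpa using h)).symm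

noncomputable def GG (τ : ℝ) (w : ℝ) : E 4 :=
  WithLp.toLp 2 ![2 * plat (TT τ 0) w, 16 * plat (TT τ 1) w, 256 * plat (TT τ 2) w, 0]

theorem GG_smooth (τ : ℝ) : ContDiff ℝ ∞ (GG τ) := by
  rw [contDiff_euclidean]
  intro i
  fin_cases i
  · exact contDiff_const.mul (plat_smooth _)
  · exact contDiff_const.mul (plat_smooth _)
  · exact contDiff_const.mul (plat_smooth _)
  · exact contDiff_const

theorem GG_per (τ : ℝ) : Function.Periodic (GG τ) 1 := by
  intro w
  unfold GG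
  rw [plat_per, plat_per, plat_per]

theorem GG_bound (τ : ℝ) : ∃ L : ℝ, 0 ≤ L ∧ ∀ w, ‖deriv (GG τ) w‖ ≤ L := by
  have h1 : Continuous (deriv (GG τ)) := (GG_smooth τ).continuous_deriv (by simp)
  have h2 : Function.Periodic (deriv (GG τ)) 1 := by
    intro w
    rw [← deriv_comp_add_const]
    congr 1
    funext x
    exact GG_per τ x
  obtain ⟨L, hL⟩ := (h2.isBounded_of_continuous one_ne_zero h1).exists_norm_le
  exact ⟨L, le_trans (norm_nonneg _) (hL _ ⟨0, rfl⟩), fun w => hL _ ⟨w, rfl⟩⟩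

noncomputable def pr {n : ℕ} (i : Fin n) : E n →L[ℝ] ℝ := EuclideanSpace.proj i

@[simp] theorem pr_apply {n : ℕ} (i : Fin n) (x : E n) : pr i x = x i := rfl

theorem GG_deriv3 (τ w : ℝ) : deriv (GG τ) w 3 = 0 := by
  have h1 : HasDerivAt (GG τ) (deriv (GG τ) w) w :=
    ((GG_smooth τ).differentiable (by simp) w).hasDerivAt
  have h2 := (pr (3 : Fin 4)).hasFDerivAt.comp_hasDerivAt w h1
  have h3 : HasDerivAt (⇑(pr (3 : Fin 4)) ∘ GG τ) 0 w := by
    have : (⇑(pr (3 : Fin 4)) ∘ GG τ) = fun _ => 0 := by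
      funext x; rfl
    rw [this]; exact hasDerivAt_const w 0
  exact h2.unique h3

noncomputable def aa (μ : ℝ) : Fin 4 → ℝ := ![2, 16, 256, μ]

noncomputable def FT (τ μ : ℝ) (x : E 4) : E 4 := diagL (aa μ) x - GG τ (x 3)

theorem FT_smooth (τ μ : ℝ) : ContDiff ℝ ∞ (FT τ μ) :=
  (diagL (aa μ)).contDiff.sub
    ((GG_smooth τ).comp (pr (3 : Fin 4)).contDiff)

theorem FT_fderiv (τ μ : ℝ) (x v : E 4) :
    fderiv ℝ (FT τ μ) x v = diagL (aa μ) v - v 3 • deriv (GG τ) (x 3) := by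
  have h1 : HasDerivAt (GG τ) (deriv (GG τ) (x 3)) (pr (3 : Fin 4) x) :=
    ((GG_smooth τ).differentiable (by simp) _).hasDerivAt
  have h2 := h1.hasFDerivAt.comp x (pr (3 : Fin 4)).hasFDerivAt
  have h3 := (diagL (aa μ)).hasFDerivAt.sub h2
  have h4 : HasFDerivAt (FT τ μ) _ x := h3
  rw [h4.fderiv]
  simp

theorem FT_expand (τ μ L : ℝ) (hL : ∀ w, ‖deriv (GG τ) w‖ ≤ L) (h2 : 2 ≤ μ) (hμ : 2 * L ≤ μ)
    (x v : E 4) : 4 / 3 * ‖v‖ ≤ ‖fderiv ℝ (FT τ μ) x v‖ := by
  rw [FT_fderiv]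
  set y := diagL (aa μ) v - v 3 • deriv (GG τ) (x 3) with hy
  have h3 : y 3 = μ * v 3 := by
    rw [hy]
    simp [GG_deriv3, aa]
  have h4 : 2 * ‖v‖ ≤ ‖diagL (aa μ) v‖ := by
    apply mul_le_norm (by norm_num)
    intro j
    rw [diagL_apply, abs_mul]
    apply mul_le_mul_of_nonneg_right _ (abs_nonneg _)
    refine le_trans ?_ (le_abs_self _)
    fin_cases j <;> simp [aa, h2] <;> norm_num
  have h5 : diagL (aa μ) v = y + v 3 • deriv (GG τ) (x 3) := by rw [hy]; abel
  have h6 : ‖diagL (aa μ) v‖ ≤ ‖y‖ + |v 3| * L := by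
    rw [h5]
    refine (norm_add_le _ _).trans ?_
    rw [norm_smul, Real.norm_eq_abs]
    have := mul_le_mul_of_nonneg_left (hL (x 3)) (abs_nonneg (v 3))
    linarith
  have h7 : μ * |v 3| ≤ ‖y‖ := by
    have := PiLp.norm_apply_le y 3
    rwa [h3, Real.norm_eq_abs, abs_mul, abs_of_nonneg (by linarith : 0 ≤ μ)] at this
  have h8 := mul_le_mul_of_nonneg_right hμ (abs_nonneg (v 3))
  nlinarith

theorem FT_desc (τ : ℝ) (M : ℕ) {x x' : E 4} (h : torusProj x = torusProj x') :
    torusProj (FT τ M x) = torusProj (FT τ M x') := by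
  rw [proj_eq_iff] at h ⊢
  have hG : GG τ (x' 3) = GG τ (x 3) := by
    obtain ⟨k, hk⟩ := h 3
    rw [hk]
    simpa using ((GG_per τ).int_mul k) (x 3)
  intro i
  obtain ⟨k, hk⟩ := h i
  have ha : ∃ a : ℤ, aa M i = a := by
    fin_cases i
    · exact ⟨2, by simp [aa]⟩
    · exact ⟨16, by simp [aa]⟩
    · exact ⟨256, by simp [aa]⟩
    · exact ⟨M, by simp [aa]⟩
  obtain ⟨a, ha⟩ := ha
  refine ⟨a * k, ?_⟩
  simp only [FT, PiLp.sub_apply, diagL_apply, hG, hk, ha]
  push_cast
  ring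

noncomputable def fT (τ : ℝ) (M : ℕ) (y : Torus 4) : Torus 4 :=
  torusProj (FT τ M (Function.surjInv proj_surj y))

theorem fT_proj (τ : ℝ) (M : ℕ) (x : E 4) : torusProj (FT τ M x) = fT τ M (torusProj x) :=
  FT_desc τ M (Function.surjInv_eq proj_surj _).symm

theorem FT_near (τ : ℝ) (μ : ℕ) (x : E 4) (s : Dg) (h : |x 3 - uu s| ≤ 1 / 2 ^ 20) (j : Fin 4) :
    ∃ k : ℤ, FT τ ((8192 * μ : ℕ) : ℝ) x j =
      aa ((8192 * μ : ℕ) : ℝ) j * (x j - TT τ j s) + k := by
  fin_cases j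
  · refine ⟨0, ?_⟩
    show 2 * x 0 - 2 * plat (TT τ 0) (x 3) = 2 * (x 0 - TT τ 0 s) + ((0 : ℤ) : ℝ)
    rw [plat_eq _ h]; push_cast; ring
  · refine ⟨0, ?_⟩
    show 16 * x 1 - 16 * plat (TT τ 1) (x 3) = 16 * (x 1 - TT τ 1 s) + ((0 : ℤ) : ℝ)
    rw [plat_eq _ h]; push_cast; ring
  · refine ⟨0, ?_⟩
    show 256 * x 2 - 256 * plat (TT τ 2) (x 3) = 256 * (x 2 - TT τ 2 s) + ((0 : ℤ) : ℝ)
    rw [plat_eq _ h]; push_cast; ring
  · refine ⟨μ * idx s, ?_⟩
    show ((8192 * μ : ℕ) : ℝ) * x 3 - 0 =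
      ((8192 * μ : ℕ) : ℝ) * (x 3 - uu s) + (((μ : ℤ) * (idx s : ℤ) : ℤ) : ℝ)
    unfold uu; push_cast; ring

theorem rr_aa {M : ℝ} (hM : M ≠ 0) (j : Fin 4) : rr (1 / M) j * aa M j = 1 := by
  fin_cases j <;> simp [rr, aa, hM]

theorem torus_main : ∃ (f : Torus 4 → Torus 4) (Λ : Set (Torus 4)),
    IsSmoothExpanding f ∧ IsRepeller f Λ ∧ lowerBox Λ < upperBox Λ := by
  have hex : ∃ (τ : ℝ) (μ : ℕ) (L : ℝ), Par τ (1 / ((8192 * μ : ℕ) : ℝ)) ∧
      (∀ w, ‖deriv (GG τ) w‖ ≤ L) ∧ 2 * L ≤ ((8192 * μ : ℕ) : ℝ) := by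
    obtain ⟨τ, μ0, h0, -⟩ := exists_par 0
    obtain ⟨L, -, hL⟩ := GG_bound τ
    obtain ⟨τ', μ, h, hμ⟩ := exists_par (2 * L)
    exact ⟨τ, μ, L, ⟨h0.good, h.pos, h.small⟩, hL, hμ⟩
  obtain ⟨τ, μ, L, h, hL, hμ⟩ := hex
  set M : ℝ := ((8192 * μ : ℕ) : ℝ) with hMd
  have hM : 0 < M := one_div_pos.1 h.pos
  have hc20 := h.c20
  have hM2 : 2 ≤ M := by
    have h1 : 1 / M ≤ 1 / 2 := hc20.trans (by norm_num)
    rwa [one_div_le_one_div hM (by norm_num)] at h1
  set c : ℝ := 1 / M with hcd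
  have hc0 : 0 < c := h.pos
  have hstep : ∀ s, fT τ (8192 * μ) (torusProj (P4 τ c s)) =
      torusProj (P4 τ c (fun i => s (i + 1))) := by
    intro s
    rw [← fT_proj]
    symm
    rw [proj_eq_iff]
    intro j
    have h1 := h.crd_near s
    obtain ⟨k, hk⟩ := FT_near τ μ (P4 τ c s) (s 0) (le_trans h1 (by linarith)) j
    refine ⟨k, ?_⟩
    rw [hk]
    congr 1
    show aa M j * (crd τ c j s - TT τ j (s 0)) = crd τ c j (fun i => s (i + 1))
    rw [h.crd_succ j s, add_sub_cancel_left, ← mul_assoc, mul_comm (aa M j), rr_aa hM.ne',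
      one_mul]
  have hcont : Continuous (fun s => torusProj (P4 τ c s)) := proj_cont.comp h.P4_cont
  let U : Set (Torus 4) := {y | (∀ j, j ≠ 3 → ‖y j‖ < 1 / 2 ^ 10) ∧
    ∃ s, ‖y 3 - ((uu s : ℝ) : UnitAddCircle)‖ < 3 / 10 * c}
  have hU : IsOpen U := by
    have e : U = (⋂ j, ⋂ _ : j ≠ 3, {y : Torus 4 | ‖y j‖ < 1 / 2 ^ 10}) ∩
        ⋃ s, {y : Torus 4 | ‖y 3 - ((uu s : ℝ) : UnitAddCircle)‖ < 3 / 10 * c} := by
      ext y; simp [U]
    rw [e]
    refine IsOpen.inter (isOpen_iInter_of_finite fun j => isOpen_iInter_of_finite fun _ => ?_)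
      (isOpen_iUnion fun s => ?_)
    · exact isOpen_lt (PiLp.continuous_apply 2 _ j).norm continuous_const
    · exact isOpen_lt ((PiLp.continuous_apply 2 _ 3).sub continuous_const).norm continuous_const
  have hmem : ∀ s, torusProj (P4 τ c s) ∈ U := by
    intro s
    refine ⟨fun j hj => ?_, s 0, ?_⟩
    · refine lt_of_le_of_lt (coe_norm_le _) (lt_of_le_of_lt (h.crd_small j hj s) (by norm_num))
    · rw [proj_apply, ← AddCircle.coe_sub]
      refine lt_of_le_of_lt (coe_norm_le _) (lt_of_le_of_lt (h.crd_near s) (by linarith))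
  have hiter : ∀ k s, (fT τ (8192 * μ))^[k] (torusProj (P4 τ c s)) =
      torusProj (P4 τ c (fun i => s (i + k))) := by
    intro k
    induction k with
    | zero => intro s; rfl
    | succ k ih => intro s; rw [Function.iterate_succ_apply, hstep, ih]; rfl
  have hlift : ∀ y ∈ U, ∃ (x : E 4) (s : Dg), torusProj x = y ∧
      (∀ j, j ≠ 3 → |x j| < 1 / 2 ^ 10) ∧ |x 3 - uu s| < 3 / 10 * c := by
    rintro y ⟨hy1, s, hy2⟩
    choose x hx using fun j : Fin 4 => exists_lift (y j) (if j = 3 then uu s else 0)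
    refine ⟨WithLp.toLp 2 x, s, by ext j; exact (hx j).1, fun j hj => ?_, ?_⟩
    · have := (hx j).2
      simp only [hj, if_false, sub_zero, AddCircle.coe_zero] at this
      show |x j| < _
      rw [this]; exact hy1 j hj
    · have := (hx 3).2
      simp only [if_true] at this
      show |x 3 - uu s| < _
      rw [this]; exact hy2
  refine ⟨fT τ (8192 * μ), Set.range (fun s => torusProj (P4 τ c s)),
    ⟨FT τ M, 4 / 3, FT_smooth τ M, fT_proj τ (8192 * μ), by norm_num,
      FT_expand τ M L hL hM2 hμ⟩,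
    ⟨Set.range_nonempty _, isCompact_range hcont, ?_, U, hU, ?_, ?_⟩, lt_of_bounds ?_ ?_⟩
  · ext y
    constructor
    · rintro ⟨_, ⟨s, rfl⟩, rfl⟩
      exact ⟨_, (hstep s).symm⟩
    · rintro ⟨s, rfl⟩
      exact ⟨_, ⟨cons (.inr 0) s, rfl⟩, hstep _⟩
  · rintro _ ⟨s, rfl⟩
    exact hmem s
  · ext y
    constructor
    · rintro ⟨s, rfl⟩
      exact ⟨hmem s, fun k => by rw [hiter]; exact hmem _⟩
    · rintro ⟨-, hy⟩
      choose x s hx1 hx2 hx3 using fun k => hlift _ (hy k)
      have hxb : ∀ k j, |x k j| ≤ 3 / 20 := by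
        intro k j
        by_cases hj : j = 3
        · subst hj
          have h1 := hx3 k
          have h2 := uu_nonneg (s k)
          have h3 := uu_le (s k)
          rw [abs_lt] at h1
          rw [abs_le]
          norm_num at hc20
          constructor <;> linarith [h1.1, h1.2]
        · exact le_trans (hx2 k j hj).le (by norm_num)
      have hrec : ∀ k j, x k j = TT τ j (s k) + rr c j * x (k + 1) j := by
        intro k j
        have h1 : torusProj (FT τ M (x k)) = torusProj (x (k + 1)) := by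
          rw [hx1 (k + 1), Function.iterate_succ_apply', ← hx1 k]
          exact fT_proj τ (8192 * μ) (x k)
        obtain ⟨k1, hk1⟩ := (proj_eq_iff _ _).1 h1 j
        obtain ⟨k2, hk2⟩ := FT_near τ μ (x k) (s k) (le_trans (hx3 k).le (by linarith)) j
        rw [← hMd] at hk2
        have h2 : |aa M j * (x k j - TT τ j (s k))| ≤ 1 / 2 := by
          by_cases hj : j = 3
          · subst hj
            show |M * (x k 3 - uu (s k))| ≤ _
            rw [abs_mul, abs_of_pos hM]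
            have h3 := mul_le_mul_of_nonneg_left (hx3 k).le hM.le
            have h4 : M * (3 / 10 * c) = 3 / 10 := by rw [hcd]; field_simp
            linarith
          · have h3 : |aa M j| ≤ 256 := by
              fin_cases j
              · show |(2 : ℝ)| ≤ 256
                norm_num
              · show |(16 : ℝ)| ≤ 256
                norm_num
              · show |(256 : ℝ)| ≤ 256
                norm_num
              · exact absurd rfl hj
            have h4 := abs_sub (x k j) (TT τ j (s k))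
            have h5 := hx2 k j hj
            have h6 := h.TT_small j hj (s k)
            rw [abs_mul]
            refine le_trans (mul_le_mul h3 (le_trans h4 (add_le_add h5.le h6)) (abs_nonneg _)
              (by norm_num)) (by norm_num)
        have h3 : k1 + k2 = 0 := by
          have h4 := hxb (k + 1) j
          have h5 : |((k1 + k2 : ℤ) : ℝ)| < 1 := by
            push_cast
            rw [abs_le] at h4 h2
            rw [abs_lt]
            constructor <;> linarith [h4.1, h4.2, h2.1, h2.2]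
          have h6 : |k1 + k2| < 1 := by exact_mod_cast h5
          exact Int.abs_lt_one_iff.1 h6
        have h4 : (k1 : ℝ) + k2 = 0 := by exact_mod_cast h3
        have h5 : x (k + 1) j = aa M j * (x k j - TT τ j (s k)) := by linarith
        rw [h5, ← mul_assoc, rr_aa hM.ne']
        ring
      refine ⟨s, ?_⟩
      have h7 : P4 τ c s = x 0 := by
        ext j
        exact (val_unique (h.rr_pos j).le (h.rr_le j) (fun i => h.TT_abs j (s i))
          (fun k => x k j) (3 / 20) (fun k => hxb k j) (fun k => hrec k j)).symm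
      show torusProj (P4 τ c s) = y
      rw [h7, hx1 0]
      rfl
  · refine upper h.good _ (fun a => torusProj (P4 τ c a.1)) ?_ 5 (by norm_num) ?_
    · rintro _ ⟨s, rfl⟩
      exact ⟨(s, s), rfl⟩
    · intro t a b η h1 _ hx hy hz hη
      have := dist_le_of (x := P4 τ c a.1) (y := P4 τ c b.1) (le_trans (by positivity) hη)
        (h.crd_all t a.1 b.1 η h1 hx hy hz hη)
      refine le_trans (proj_dist_le _ _) ?_
      norm_num at this ⊢
      exact this
  · refine h.lower' _ (isCompact_range hcont).totallyBounded (fun s => torusProj (P4 τ c s))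
      (fun s => ⟨s, rfl⟩) 1 one_pos ?_
    intro j s s'
    rw [one_mul]
    apply le_proj_dist (P4 τ c s) (P4 τ c s') j
    have h1 := h.crd_abs j s
    have h2 := h.crd_abs j s'
    have h3 := h.crd_nonneg j s
    have h4 := h.crd_nonneg j s'
    show |crd τ c j s - crd τ c j s'| ≤ 1 / 2
    rw [abs_le] at h1 h2 ⊢
    constructor <;> linarith [h1.2, h2.2]

end Pool.Agent.H484Z.Box
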