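import Pool.Agent.H484Z.Box.Sponge

set_option autoImplicit false

namespace Pool.Agent.H484Z.Box

open Filter Topology Finset

def k1 : Dg → Fin 256 ⊕ Fin 15
  | .inl x => .inl x.2.2
  | .inr k => .inr k

def k2 : Dg → (Fin 2 × Fin 2) ⊕ Fin 15
  | .inl x => .inl (x.1, x.2.1)
  | .inr k => .inr k

theorem k1_eq {a b : Dg} (h : k1 a = k1 b) : dy a = dy b ∧ dz a = dz b := by
  rcases a with x | k <;> rcases b with x' | k' <;> simp_all [k1, dy, dz]

theorem k2_eq {a b : Dg} (h : k2 a = k2 b) : da a = da b ∧ db a = db b ∧ dy a = dy b := by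
  rcases a with x | k <;> rcases b with x' | k' <;> simp_all [k2, da, db, dy]

/-- The lattice position of the first `n` digits. -/
def lat (n m p : ℕ) (s : ℕ → Dg) : ℕ :=
  ∑ i ∈ range n, 2 ^ (n - i) * (2 ^ m * da (s i) + p * db (s i))

theorem lat_cast (n m p : ℕ) (s : ℕ → Dg) : (lat n m p s : ℝ) =
    2 ^ n * 2 ^ m * ∑ i ∈ range n, (1 / 2 : ℝ) ^ i * (da (s i) + p / 2 ^ m * db (s i)) := by
  unfold lat
  push_cast
  rw [mul_sum]
  apply sum_congr rfl
  intro i hi
  have hi' := (mem_range.1 hi).le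
  have h3 : (2 : ℝ) ^ n = 2 ^ (n - i) * 2 ^ i := by rw [← pow_add]; congr 1; omega
  rw [h3, one_div, inv_pow]
  field_simp

theorem geo_le (n : ℕ) (g : ℕ → ℝ) (B : ℝ) (hB : 0 ≤ B) (hg : ∀ i, g i ≤ B) :
    ∑ i ∈ range n, (1 / 2 : ℝ) ^ i * g i ≤ 2 * B := by
  calc ∑ i ∈ range n, (1 / 2 : ℝ) ^ i * g i ≤ ∑ i ∈ range n, (1 / 2 : ℝ) ^ i * B :=
        sum_le_sum fun i _ => mul_le_mul_of_nonneg_left (hg i) (by positivity)
    _ = (∑ i ∈ range n, (1 / 2 : ℝ) ^ i) * B := by rw [sum_mul]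
    _ ≤ 2 * B := mul_le_mul_of_nonneg_right (sum_geometric_two_le n) hB

noncomputable def tl (τ : ℝ) (n : ℕ) (s : ℕ → Dg) : ℝ :=
  val (1 / 2) (fun i => dx τ (s (i + n + n)))

theorem cX_split {τ : ℝ} (h0 : 0 ≤ τ) (h1 : τ ≤ 1 / 2) (n m p : ℕ) (s : ℕ → Dg) :
    cX τ s = (lat n m p s : ℝ) / (2 ^ n * 2 ^ m) +
      (τ - p / 2 ^ m) * (∑ i ∈ range n, (1 / 2 : ℝ) ^ i * db (s i)) +
      (1 / 2) ^ n * (∑ i ∈ range n, (1 / 2 : ℝ) ^ i * dx τ (s (i + n)) +
        (1 / 2) ^ n * tl τ n s) := by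
  unfold cX tl
  rw [val_split (by norm_num) le_rfl (fun i => dx_abs h0 h1 (s i)) n,
    val_split (by norm_num) le_rfl (fun i => dx_abs h0 h1 (s (i + n))) n, lat_cast,
    mul_div_cancel_left₀ _ (by positivity), mul_sum, ← sum_add_distrib]
  congr 1
  exact sum_congr rfl fun i _ => by unfold dx; ring

theorem num_bound (t : ℕ) :
    1039 ^ t * (1039 ^ t * (271 ^ (64 * t) * (19 ^ (64 * t) *
      (2 ^ (64 * t + t + 2) * 2 ^ (6 * (64 * t) + 3))))) ≤ 32 * 2 ^ (1261 * t) := by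
  have h1 : 1039 ^ t * (1039 ^ t * (271 ^ (64 * t) * (19 ^ (64 * t) *
      (2 ^ (64 * t + t + 2) * 2 ^ (6 * (64 * t) + 3))))) =
      32 * (1039 * 1039 * 2 * (271 * 19 * 128) ^ 64) ^ t := by
    rw [mul_pow, mul_pow, mul_pow, ← pow_mul, mul_pow, mul_pow,
      show (128 : ℕ) = 2 * 2 ^ 6 by norm_num, mul_pow, ← pow_mul 2 6, pow_add, pow_add, pow_add]
    ring
  rw [h1, pow_mul]
  apply Nat.mul_le_mul_left
  apply Nat.pow_le_pow_left
  have h2 : (271 * 19 * 128) ^ 64 ≤ (2 ^ 619) ^ 2 := by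
    rw [show 64 = 32 * 2 by norm_num, pow_mul]
    apply Nat.pow_le_pow_left
    decide +kernel
  calc 1039 * 1039 * 2 * (271 * 19 * 128) ^ 64 ≤ 2 ^ 23 * (2 ^ 619) ^ 2 :=
        Nat.mul_le_mul (by norm_num) h2
    _ = 2 ^ 1261 := by rw [← pow_mul, ← pow_add]

theorem upper {τ : ℝ} (hτ : Good τ) {Y : Type*} [PseudoMetricSpace Y] (K : Set Y)
    (φ : (ℕ → Dg) × (ℕ → Dg) → Y) (hK : K ⊆ Set.range φ) (C : ℝ) (hC : 0 < C)
    (h : ∀ (t : ℕ) (a b : (ℕ → Dg) × (ℕ → Dg)) (η : ℝ), (∀ i < t, a.1 i = b.1 i) →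
      (∀ i < t, a.2 i = b.2 i) → |cX τ a.1 - cX τ b.1| ≤ η → |cY a.1 - cY b.1| ≤ η →
      |cZ a.1 - cZ b.1| ≤ η → 1 / 2 ^ (512 * t) ≤ η → dist (φ a) (φ b) ≤ C * η) :
    lowerBox K ≤ ((247 / 100 : ℝ) : EReal) := by
  obtain ⟨h0, h1, h2⟩ := hτ
  apply lowerBox_le K (C * 1024) 32 (by positivity) (by norm_num)
  intro T
  obtain ⟨t, ht, p, -, he0, he1⟩ := h2 T
  refine ⟨t, ht, ?_⟩
  set n := 64 * t with hn
  let key : (ℕ → Dg) × (ℕ → Dg) → (Fin t → Dg) × (Fin t → Dg) × (Fin n → Fin 256 ⊕ Fin 15) ×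
      (Fin n → (Fin 2 × Fin 2) ⊕ Fin 15) × ℕ × ℕ := fun a =>
    (fun i => a.1 i, fun i => a.2 i, fun i => k1 (a.1 i), fun i => k2 (a.1 (i + n)),
      lat n t p a.1, ⌊tl τ n a.1 * 2 ^ (6 * n)⌋₊)
  have hdb1 : ∀ s, (db s : ℝ) ≤ 1 := fun s => by exact_mod_cast db_le s
  have hda1 : ∀ s, (da s : ℝ) ≤ 1 := fun s => by exact_mod_cast da_le s
  have htl0 : ∀ s, 0 ≤ tl τ n s := fun s => val_nonneg (by norm_num) fun i => dx_nonneg h0 _
  have hE : (0 : ℝ) < 1 / 2 ^ (512 * t) := by positivity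
  have hc := coverNum_le_card K (C * 1024 / 2 ^ (512 * t)) φ hK key
    (univ ×ˢ univ ×ˢ univ ×ˢ univ ×ˢ range (2 ^ (n + t + 2)) ×ˢ range (2 ^ (6 * n + 3)))
    (by
      intro a
      simp only [key, mem_product, mem_univ, true_and, mem_range]
      constructor
      · have e1 := lat_cast n t p a.1
        have e2 := geo_le n (fun i => (da (a.1 i) : ℝ) + p / 2 ^ t * db (a.1 i)) (3 / 2)
          (by norm_num) (fun i => by
            have := hda1 (a.1 i)
            have := hdb1 (a.1 i)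
            have h5 : (0 : ℝ) ≤ p / 2 ^ t := by positivity
            have h6 : (0 : ℝ) ≤ db (a.1 i) := Nat.cast_nonneg _
            nlinarith)
        have e3 : (lat n t p a.1 : ℝ) < 2 ^ (n + t + 2) := by
          rw [e1, pow_add, pow_add]
          apply mul_lt_mul_of_pos_left _ (by positivity)
          linarith
        exact_mod_cast e3
      · rw [Nat.floor_lt (mul_nonneg (htl0 _) (by positivity))]
        have e1 : |tl τ n a.1| ≤ 2 * 2 :=
          val_abs_le (by norm_num) le_rfl (fun i => dx_abs h0 h1 _)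
        have e2 := le_abs_self (tl τ n a.1)
        push_cast
        rw [pow_add, mul_comm]
        apply mul_lt_mul_of_pos_left _ (by positivity)
        linarith)
    (by
      intro a b hab
      simp only [key, Prod.mk.injEq] at hab
      obtain ⟨q1, q2, q3, q4, q5, q6⟩ := hab
      have r3 : ∀ i < n, k1 (a.1 i) = k1 (b.1 i) := fun i hi => congrFun q3 ⟨i, hi⟩
      have r4 : ∀ i < n, k2 (a.1 (i + n)) = k2 (b.1 (i + n)) := fun i hi => congrFun q4 ⟨i, hi⟩
      have hd : C * 1024 / 2 ^ (512 * t) = C * (1024 * (1 / 2 ^ (512 * t))) := by ring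
      rw [hd]
      have hpow : ∀ (c : ℕ) (k : ℕ), c * k = 512 * t →
          (1 / (2 : ℝ) ^ c) ^ k = 1 / 2 ^ (512 * t) := by
        intro c k hck
        rw [one_div, inv_pow, ← pow_mul, hck, one_div]
      apply h t a b _ (fun i hi => congrFun q1 ⟨i, hi⟩) (fun i hi => congrFun q2 ⟨i, hi⟩)
      · rw [cX_split h0 h1 n t p a.1, cX_split h0 h1 n t p b.1, q5]
        have e1 : ∑ i ∈ range n, (1 / 2 : ℝ) ^ i * dx τ (a.1 (i + n)) =
            ∑ i ∈ range n, (1 / 2 : ℝ) ^ i * dx τ (b.1 (i + n)) :=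
          sum_congr rfl fun i hi => by
            obtain ⟨u1, u2, -⟩ := k2_eq (r4 i (mem_range.1 hi))
            unfold dx; rw [u1, u2]
        rw [e1]
        have ga := geo_le n (fun i => (db (a.1 i) : ℝ)) 1 (by norm_num) (fun i => hdb1 _)
        have gb := geo_le n (fun i => (db (b.1 i) : ℝ)) 1 (by norm_num) (fun i => hdb1 _)
        have ga0 : 0 ≤ ∑ i ∈ range n, (1 / 2 : ℝ) ^ i * db (a.1 i) :=
          sum_nonneg fun i _ => by positivity
        have gb0 : 0 ≤ ∑ i ∈ range n, (1 / 2 : ℝ) ^ i * db (b.1 i) :=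
          sum_nonneg fun i _ => by positivity
        have hP : (0 : ℝ) < 2 ^ (6 * n) := by positivity
        have fa1 := Nat.floor_le (mul_nonneg (htl0 a.1) hP.le)
        have fa2 := Nat.lt_floor_add_one (tl τ n a.1 * 2 ^ (6 * n))
        have fb1 := Nat.floor_le (mul_nonneg (htl0 b.1) hP.le)
        have fb2 := Nat.lt_floor_add_one (tl τ n b.1 * 2 ^ (6 * n))
        rw [q6] at fa1 fa2
        have hw : (1 / 2 : ℝ) ^ n * (1 / 2) ^ n = 1 / 2 ^ (512 * t) * 2 ^ (6 * n) := by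
          rw [show 512 * t = n + n + 6 * n by omega, pow_add, pow_add, one_div, inv_pow]
          field_simp
        have e7 : (1 : ℝ) / 2 ^ (520 * t) ≤ 1 / 2 ^ (512 * t) := by
          apply one_div_le_one_div_of_le (by positivity)
          apply pow_le_pow_right₀ (by norm_num)
          omega
        set E : ℝ := 1 / 2 ^ (512 * t) with hEd
        set ε : ℝ := τ - p / 2 ^ t with hε
        set A := ∑ i ∈ range n, (1 / 2 : ℝ) ^ i * db (a.1 i)
        set B := ∑ i ∈ range n, (1 / 2 : ℝ) ^ i * db (b.1 i)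
        set M := ∑ i ∈ range n, (1 / 2 : ℝ) ^ i * dx τ (b.1 (i + n))
        set L := (lat n t p b.1 : ℝ) / (2 ^ n * 2 ^ t)
        set ta := tl τ n a.1
        set tb := tl τ n b.1
        set P : ℝ := 2 ^ (6 * n)
        have e8 : L + ε * A + (1 / 2) ^ n * (M + (1 / 2) ^ n * ta) -
            (L + ε * B + (1 / 2) ^ n * (M + (1 / 2) ^ n * tb)) =
            ε * (A - B) + E * (ta * P - tb * P) := by
          have : E * (ta * P - tb * P) = ((1 / 2 : ℝ) ^ n * (1 / 2) ^ n) * (ta - tb) := by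
            rw [hw]; ring
          rw [this]; ring
        rw [e8, abs_le]
        have hεE : ε ≤ E := le_trans he1 e7
        have u1 : ε * (A - B) ≤ ε * 2 := mul_le_mul_of_nonneg_left (by linarith) he0
        have u2 : ε * (-2) ≤ ε * (A - B) := mul_le_mul_of_nonneg_left (by linarith) he0
        have u3 : E * (ta * P - tb * P) ≤ E * 1 := mul_le_mul_of_nonneg_left (by linarith) hE.le
        have u4 : E * (-1) ≤ E * (ta * P - tb * P) :=
          mul_le_mul_of_nonneg_left (by linarith) hE.le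
        constructor <;> linarith
      · have e1 := val_sub_le (r := 1 / 16) (by norm_num) (by norm_num)
          (fun i => dy_abs (a.1 i)) (fun i => dy_abs (b.1 i)) (n + n) (fun i hi => by
            by_cases hi' : i < n
            · rw [(k1_eq (r3 i hi')).1]
            · have := (k2_eq (r4 (i - n) (by omega))).2.2
              rw [show i - n + n = i by omega] at this
              rw [this])
        have e2 := hpow 4 (n + n) (by omega)
        rw [show (2 : ℝ) ^ 4 = 16 by norm_num] at e2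
        rw [e2] at e1
        unfold cY
        linarith
      · have e1 := val_sub_le (r := 1 / 256) (by norm_num) (by norm_num)
          (fun i => dz_abs (a.1 i)) (fun i => dz_abs (b.1 i)) n (fun i hi => by
            rw [(k1_eq (r3 i hi)).2])
        have e2 := hpow 8 n (by omega)
        rw [show (2 : ℝ) ^ 8 = 256 by norm_num] at e2
        rw [e2] at e1
        unfold cZ
        linarith
      · linarith)
  simp only [card_product, card_univ, Fintype.card_fun, Fintype.card_sum, Fintype.card_prod,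
    Fintype.card_fin, card_range] at hc
  have hc2 := le_trans hc (num_bound t)
  exact_mod_cast hc2

end Pool.Agent.H484Z.Box
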